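import Pool.Agent.H50.LQ.Main
import Pool.Agent.H50.LP.Ana

/-! The analytic part. -/

set_option autoImplicit false

namespace H50LQ

open Finset H50LP

/-- the exact lower end of the range of the cofactors -/
noncomputable def uu (n : ℕ) : ℝ := Real.exp (3 * Real.log n - 9 / 4 * Real.log ((n : ℝ) + 1))

theorem log_succ_le (n : ℕ) (hn : 1 ≤ n) : Real.log ((n : ℝ) + 1) ≤ Real.log n + 1 / n := by
  have hx0 : (0 : ℝ) < n := by exact_mod_cast hn
  have h3 := Real.log_le_sub_one_of_pos (x := ((n : ℝ) + 1) / n) (by positivity)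
  rw [Real.log_div (by positivity) (by positivity)] at h3
  have h4 : ((n : ℝ) + 1) / n - 1 = 1 / n := by field_simp; ring
  linarith

theorem uu_facts (n : ℕ) (hn : 1 ≤ n) (U : ℝ) (hU1 : 1 ≤ U)
    (hU : U ^ 4 * ((n : ℝ) + 1) ^ 9 ≤ (n : ℝ) ^ 12) :
    U ≤ uu n ∧ Real.log (uu n) ≤ 3 / 4 * Real.log n ∧
      3 / 4 * Real.log n - 9 / 4 * (1 / n) ≤ Real.log (uu n) ∧
      ∀ k ∈ KK n, uu n < k := by
  have hn0 : (0 : ℝ) < n := by exact_mod_cast hn
  have hlog : Real.log (uu n) = 3 * Real.log n - 9 / 4 * Real.log ((n : ℝ) + 1) := Real.log_exp _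
  have hu4 : (uu n) ^ 4 * ((n : ℝ) + 1) ^ 9 = (n : ℝ) ^ 12 := by
    have h1 : ((n : ℝ) + 1) ^ 9 = Real.exp (9 * Real.log ((n : ℝ) + 1)) := by
      rw [show (9 : ℝ) = ((9 : ℕ) : ℝ) by norm_num, Real.exp_nat_mul, Real.exp_log (by positivity)]
    have h2 : (n : ℝ) ^ 12 = Real.exp (12 * Real.log n) := by
      rw [show (12 : ℝ) = ((12 : ℕ) : ℝ) by norm_num, Real.exp_nat_mul, Real.exp_log hn0]
    unfold uu
    rw [h1, h2, ← Real.exp_nat_mul, ← Real.exp_add]
    congr 1
    push_cast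
    ring
  have hu0 : 0 < uu n := Real.exp_pos _
  have hp9 : (0 : ℝ) < ((n : ℝ) + 1) ^ 9 := by positivity
  have hle : Real.log n ≤ Real.log ((n : ℝ) + 1) := Real.log_le_log hn0 (by linarith)
  have hge := log_succ_le n hn
  refine ⟨?_, by rw [hlog]; linarith, by rw [hlog]; linarith, ?_⟩
  · by_contra hcon
    have h1 : (uu n) ^ 4 < U ^ 4 := pow_lt_pow_left₀ (not_le.mp hcon) hu0.le (by norm_num)
    have h2 : (uu n) ^ 4 * ((n : ℝ) + 1) ^ 9 < U ^ 4 * ((n : ℝ) + 1) ^ 9 := by gcongr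
    linarith
  · intro k hk
    unfold KK at hk
    rw [mem_filter, Finset.mem_Icc] at hk
    by_contra hcon
    have h2 : (k : ℝ) ^ 4 ≤ (uu n) ^ 4 := pow_le_pow_left₀ (Nat.cast_nonneg k) (not_lt.mp hcon) 4
    have h3 : (n : ℝ) ^ 12 < (k : ℝ) ^ 4 * ((n : ℝ) + 1) ^ 9 := by exact_mod_cast hk.2.1
    have h4 : (k : ℝ) ^ 4 * ((n : ℝ) + 1) ^ 9 ≤ (uu n) ^ 4 * ((n : ℝ) + 1) ^ 9 := by gcongr
    linarith

theorem log_v (n : ℕ) (hn : 1 ≤ n) :
    Real.log (((n : ℝ) + 2) / 3) ≤ Real.log n + 2 / n - Real.log 3 := by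
  have hn0 : (0 : ℝ) < n := by exact_mod_cast hn
  rw [Real.log_div (by positivity) (by norm_num)]
  have h4 := Real.log_le_sub_one_of_pos (x := ((n : ℝ) + 2) / n) (by positivity)
  rw [Real.log_div (by positivity) (by positivity)] at h4
  have h5 : ((n : ℝ) + 2) / n - 1 = 2 / n := by field_simp; ring
  linarith

theorem le_v (n k : ℕ) (hk : k ∈ KK n) : (k : ℝ) ≤ ((n : ℝ) + 2) / 3 := by
  unfold KK at hk
  rw [mem_filter, Finset.mem_Icc] at hk
  have h3 : 3 * (k : ℝ) ≤ n + 2 := by exact_mod_cast hk.2.2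
  linarith

theorem s1_bound (n : ℕ) (hn : 1 ≤ n) (U : ℝ) (hU1 : 1 ≤ U)
    (hU : U ^ 4 * ((n : ℝ) + 1) ^ 9 ≤ (n : ℝ) ^ 12) :
    ∑ k ∈ KK n, 1 / (k : ℝ) ≤ 1 / 4 * Real.log n - Real.log 3 + 17 / 4 * (1 / n) + 1 / U ∨ KK n = ∅ := by
  obtain ⟨h1, h2, h3, h4⟩ := uu_facts n hn U hU1 hU
  rcases sum_inv_le (KK n) (uu n) (((n : ℝ) + 2) / 3) (by linarith)
    (fun k hk => ⟨h4 k hk, le_v n k hk⟩) with h | h
  · left
    have h5 := log_v n hn
    have h6 : 1 / uu n ≤ 1 / U := one_div_le_one_div_of_le (by linarith) h1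
    have h7 : (2 : ℝ) / n = 2 * (1 / n) := by ring
    linarith
  · right; exact h

theorem s2_bound (n : ℕ) (hn : 1 ≤ n) (U y : ℝ) (hU1 : 1 ≤ U)
    (hU : U ^ 4 * ((n : ℝ) + 1) ^ 9 ≤ (n : ℝ) ^ 12)
    (hP : 0 < Real.log n + y + Real.log 3 - 1 / U - 2 * (1 / n)) :
    ∑ k ∈ KK n, 1 / ((k : ℝ) * (2 * Real.log n + y - Real.log k)) ≤
      1 / U * (1 / (Real.log n + y + Real.log 3 - 2 * (1 / n))) + (Real.log (5 / 4) -
      (1 / 5 * y + Real.log 3 - 1 / U - 19 / 5 * (1 / n)) /
        (Real.log n + y + Real.log 3 - 1 / U - 2 * (1 / n))) ∨ KK n = ∅ := by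
  obtain ⟨h1, h2, h3, h4⟩ := uu_facts n hn U hU1 hU
  have hn0 : (0 : ℝ) < n := by exact_mod_cast hn
  have h5 := log_v n hn
  have h6 : 1 / uu n ≤ 1 / U := one_div_le_one_div_of_le (by linarith) h1
  have h7 : (2 : ℝ) / n = 2 * (1 / n) := by ring
  rw [h7] at h5
  have hiu : 0 < 1 / uu n := by
    have : 0 < uu n := by linarith
    positivity
  set L := Real.log n with hL
  set lv := Real.log (((n : ℝ) + 2) / 3) with hlv
  by_cases hne : KK n = ∅
  · right; exact hne
  obtain ⟨k0, hk0⟩ := Finset.nonempty_iff_ne_empty.mpr hne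
  have hulv : Real.log (uu n) ≤ lv := by
    have hu0 : 0 < uu n := by linarith
    have a3 : uu n < ((n : ℝ) + 2) / 3 := lt_of_lt_of_le (h4 k0 hk0) (le_v n k0 hk0)
    exact Real.log_le_log hu0 a3.le
  rcases sum_inv_log_le (KK n) (uu n) (((n : ℝ) + 2) / 3) (2 * L + y) (by linarith) (by
      rw [← hlv]; linarith) (fun k hk => ⟨h4 k hk, le_v n k hk⟩) with h | h
  · left
    refine h.trans ?_
    rw [← hlv]
    set P := L + y + Real.log 3 - 1 / U - 2 * (1 / (n : ℝ)) with hPd
    have ha : 1 / uu n * (1 / (2 * L + y - lv)) ≤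
        1 / U * (1 / (L + y + Real.log 3 - 2 * (1 / n))) := by
      have hU0 : 0 < 1 / U := by positivity
      have e1 : 0 < L + y + Real.log 3 - 2 * (1 / (n : ℝ)) := by linarith
      have e2 : 1 / (2 * L + y - lv) ≤ 1 / (L + y + Real.log 3 - 2 * (1 / n)) :=
        one_div_le_one_div_of_le e1 (by linarith)
      have e3 : 0 < 2 * L + y - lv := by linarith
      have e4 : 0 ≤ 1 / (2 * L + y - lv) := by positivity
      gcongr
    have hx1 : 0 < 2 * L + y - 1 / uu n - Real.log (uu n) := by linarith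
    have hb : Real.log (2 * L + y - 1 / uu n - Real.log (uu n)) -
        Real.log (2 * L + y - 1 / uu n - lv) ≤
        Real.log (5 / 4) - (1 / 5 * y + Real.log 3 - 1 / U - 19 / 5 * (1 / n)) / P := by
      set P1 := 5 / 4 * L + y + 9 / 4 * (1 / (n : ℝ)) with hP1
      have e1 : Real.log (2 * L + y - 1 / uu n - Real.log (uu n)) ≤ Real.log P1 := by
        apply Real.log_le_log hx1
        rw [hP1]
        linarith
      have hP1pos : 0 < P1 := by
        refine lt_of_lt_of_le hx1 ?_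
        rw [hP1]
        linarith
      have e2 : Real.log P ≤ Real.log (2 * L + y - 1 / uu n - lv) := by
        apply Real.log_le_log hP
        rw [hPd]
        linarith
      have e3 := Real.log_le_sub_one_of_pos (x := P1 / P / (5 / 4)) (by positivity)
      rw [Real.log_div (by positivity) (by norm_num), Real.log_div hP1pos.ne' hP.ne'] at e3
      have e4 : P1 / P / (5 / 4) - 1 = - ((1 / 5 * y + Real.log 3 - 1 / U - 19 / 5 * (1 / n)) / P) := by
        rw [div_div, div_sub_one (by positivity), neg_div', div_eq_div_iff (by positivity) hP.ne']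
        rw [hP1, hPd]
        ring
      rw [e4] at e3
      linarith
    linarith
  · right; exact h

theorem e_facts (n : ℕ) (hn : 1 ≤ n) :
    ((n : ℝ) + 2) / 3 ≤ (((n : ℝ) + 2) / (9 * n * (n + 1))) * (HH n : ℝ) ∧
    0 ≤ ((n : ℝ) + 2) / (9 * n * (n + 1)) := by
  have hn0 : (0 : ℝ) < n := by exact_mod_cast hn
  unfold HH
  push_cast
  refine ⟨le_of_eq ?_, by positivity⟩
  field_simp
  ring

theorem card_KK (n : ℕ) : ((KK n).card : ℝ) ≤ ((n : ℝ) + 2) / 3 := by
  have h2 : KK n ⊆ Finset.Icc 1 ((n + 2) / 3) := by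
    intro k hk
    unfold KK at hk
    rw [mem_filter, Finset.mem_Icc] at hk
    rw [Finset.mem_Icc]
    omega
  have h3 := Finset.card_le_card h2
  rw [Nat.card_Icc, Nat.add_sub_cancel] at h3
  have h4 : (((n + 2) / 3 : ℕ) : ℝ) ≤ ((n + 2 : ℕ) : ℝ) / (3 : ℕ) := Nat.cast_div_le
  push_cast at h4
  have h5 : ((KK n).card : ℝ) ≤ (((n + 2) / 3 : ℕ) : ℝ) := by exact_mod_cast h3
  linarith

theorem log_NN (n : ℕ) (hn : 1 ≤ n) : Real.log (NN n) ≤ 3 * (Real.log n + 1 / n) := by
  have hn0 : (0 : ℝ) < n := by exact_mod_cast hn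
  have h1 : (NN n : ℝ) ≤ ((n : ℝ) + 1) ^ 3 := by
    unfold NN HH
    push_cast
    nlinarith
  have h2 : (0 : ℝ) < NN n := by
    have : 0 < NN n := by unfold NN; positivity
    exact_mod_cast this
  have h3 := Real.log_le_log h2 h1
  rw [Real.log_pow] at h3
  push_cast at h3
  have h4 := log_succ_le n hn
  linarith

/-- the small primes, `D = 4` -/
theorem T_four (n : ℕ) (hn : 4 ≤ n) (s : ℝ) (hs : ∑ k ∈ KK n, 1 / (k : ℝ) ≤ s) (U : ℝ) (hU1 : 1 ≤ U)
    (hU : U ^ 4 * ((n : ℝ) + 1) ^ 9 ≤ (n : ℝ) ^ 12) :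
    ∑ p ∈ (SS (NN n) (HH n)).filter (fun p => p ^ 4 ≤ (n + 1) ^ 9), Real.log p ≤
      ((9 / 4 * Real.log n + 21 / 4 * (1 / n)) * ((s + ((n : ℝ) + 2) / (9 * n * (n + 1))) / (25 / 12) +
        9 * (((n : ℝ) + 2) / (9 * n * (n + 1))))) * HH n := by
  obtain ⟨e1, e2⟩ := e_facts n (by omega)
  set e := ((n : ℝ) + 2) / (9 * n * (n + 1)) with he
  obtain ⟨h1, h2, h3, h4⟩ := uu_facts n (by omega) U hU1 hU
  have hcard := (card_KK n).trans e1
  have hH0 : (0 : ℝ) ≤ HH n := Nat.cast_nonneg _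
  have hlogn : 0 ≤ Real.log n := Real.log_natCast_nonneg n
  have hn0 : (0 : ℝ) < n := by exact_mod_cast (by omega : 0 < n)
  set W0 := 9 / 4 * Real.log n + 21 / 4 * (1 / (n : ℝ)) with hW0
  have hW0n : 0 ≤ W0 := by positivity
  refine (sum_small n (by omega) (fun _ => 4) (fun _ _ => hn)).trans ?_
  have hG : ∑ m ∈ Finset.Icc (1 : ℕ) 4, 1 / (m : ℝ) = 25 / 12 := by
    norm_num [Finset.sum_Icc_succ_top]
  calc ∑ k ∈ KK n, ((WW n k 4).card : ℝ) * (Real.log (NN n) - Real.log k)
      ≤ ∑ k ∈ KK n, (((HH n : ℝ) * (1 / (k : ℝ)) + 1) / (25 / 12) + 9) * W0 := by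
        apply Finset.sum_le_sum
        intro k hk
        have hk1 : 1 ≤ k := by
          unfold KK at hk
          rw [mem_filter, Finset.mem_Icc] at hk
          exact hk.1.1
        have hc := count_le n k 4 hk1 (by norm_num)
        rw [hG] at hc
        norm_num at hc
        have hw : Real.log (NN n) - Real.log k ≤ W0 := by
          have a1 := log_NN n (by omega)
          have hu0 : 0 < uu n := by linarith
          have a2 := Real.log_le_log hu0 (h4 k hk).le
          rw [hW0]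
          linarith
        have hk0 : (0 : ℝ) < k := by exact_mod_cast hk1
        calc ((WW n k 4).card : ℝ) * (Real.log (NN n) - Real.log k)
            ≤ ((WW n k 4).card : ℝ) * W0 := by gcongr
          _ ≤ _ := by
            apply mul_le_mul_of_nonneg_right _ hW0n
            refine hc.trans (le_of_eq ?_)
            simp [one_div]
    _ = (((HH n : ℝ) * (∑ k ∈ KK n, 1 / (k : ℝ)) + (KK n).card) / (25 / 12) + 9 * (KK n).card) * W0 := by
        rw [← Finset.sum_mul, Finset.sum_add_distrib, ← Finset.sum_div, Finset.sum_add_distrib,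
          ← Finset.mul_sum, Finset.sum_const, Finset.sum_const, nsmul_eq_mul, nsmul_eq_mul]
        ring
    _ ≤ (((HH n : ℝ) * s + e * HH n) / (25 / 12) + 9 * (e * HH n)) * W0 := by gcongr
    _ = _ := by ring

/-- the small primes, general -/
theorem T_bound (n : ℕ) (hn : 6 ≤ n) (y c2 f s1 s2 Av : ℝ) (hc2 : 0 < c2) (hf : 0 ≤ f)
    (hyc : Real.log c2 = y - 1 - Real.log 3)
    (hx : ∀ k ∈ KK n, 36 ≤ c2 * (HH n * (1 / (k : ℝ))) ∧
      (√(c2 * (HH n * (1 / (k : ℝ)))) + 1) ^ 2 ≤ f * (c2 * (HH n * (1 / (k : ℝ)))))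
    (hc2n : c2 * HH n ≤ (n : ℝ) ^ 2)
    (hAv0 : 0 < Av) (hAv : Av ≤ Real.log n + y + Real.log 3 - 2 * (1 / n))
    (hs1 : ∑ k ∈ KK n, 1 / (k : ℝ) ≤ s1)
    (hs2 : ∑ k ∈ KK n, 1 / ((k : ℝ) * (2 * Real.log n + y - Real.log k)) ≤ s2)
    (hB : 0 ≤ Real.log n + 3 * (1 / n) - y) (U : ℝ) (hU1 : 1 ≤ U)
    (hU : U ^ 4 * ((n : ℝ) + 1) ^ 9 ≤ (n : ℝ) ^ 12) :
    ∑ p ∈ (SS (NN n) (HH n)).filter (fun p => p ^ 4 ≤ (n + 1) ^ 9), Real.log p ≤
      (2 * s1 + 2 * (Real.log n + 3 * (1 / n) - y) * s2 +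
        (((n : ℝ) + 2) / (9 * n * (n + 1))) * (2 + 2 * (Real.log n + 3 * (1 / n) - y) / Av) +
        9 / 16 * f * c2 * (9 / 4 * Real.log n + 21 / 4 * (1 / n)) * s1) * HH n := by
  obtain ⟨e1, e2⟩ := e_facts n (by omega)
  set e := ((n : ℝ) + 2) / (9 * n * (n + 1)) with he
  obtain ⟨h1, h2, h3, h4⟩ := uu_facts n (by omega) U hU1 hU
  have hcard := (card_KK n).trans e1
  have hHpos : 0 < HH n := by unfold HH; positivity
  have hH0 : (0 : ℝ) < HH n := by exact_mod_cast hHpos
  have hlogn : 0 ≤ Real.log n := Real.log_natCast_nonneg n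
  have hn0 : (0 : ℝ) < n := by exact_mod_cast (by omega : 0 < n)
  set L := Real.log n with hL
  set B := L + 3 * (1 / (n : ℝ)) - y with hBdef
  set W0 := 9 / 4 * L + 21 / 4 * (1 / (n : ℝ)) with hW0
  have hW0n : 0 ≤ W0 := by positivity
  have hlogH : Real.log 3 + 2 * L ≤ Real.log (HH n) := by
    have h5 : (3 : ℝ) * (n : ℝ) ^ 2 ≤ HH n := by
      unfold HH; push_cast; linarith
    have h6 := Real.log_le_log (by positivity) h5
    rw [Real.log_mul (by norm_num) (by positivity), Real.log_pow] at h6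
    push_cast at h6
    linarith
  have hlv := log_v n (by omega)
  rw [show (2 : ℝ) / n = 2 * (1 / n) by ring] at hlv
  set D : ℕ → ℕ := fun k => ⌊√(c2 * (HH n * (1 / (k : ℝ))))⌋₊ with hD
  have hKk : ∀ k ∈ KK n, 1 ≤ k := by
    intro k hk
    unfold KK at hk
    rw [mem_filter, Finset.mem_Icc] at hk
    exact hk.1.1
  have hDn : ∀ k ∈ KK n, D k ≤ n := by
    intro k hk
    have hk1 := hKk k hk
    have hk0 : (1 : ℝ) ≤ k := by exact_mod_cast hk1
    have h5 : √(c2 * (HH n * (1 / (k : ℝ)))) ≤ n := by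
      rw [show (n : ℝ) = √((n : ℝ) ^ 2) by rw [Real.sqrt_sq hn0.le]]
      apply Real.sqrt_le_sqrt
      refine le_trans ?_ hc2n
      have : (HH n : ℝ) * (1 / (k : ℝ)) ≤ HH n * 1 := by
        gcongr
        rw [div_le_one (by linarith)]
        exact hk0
      rw [mul_one] at this
      gcongr
    exact Nat.floor_le_of_le h5
  refine (sum_small n (by omega) D hDn).trans ?_
  calc ∑ k ∈ KK n, ((WW n k (D k)).card : ℝ) * (Real.log (NN n) - Real.log k)
      ≤ ∑ k ∈ KK n, ((HH n : ℝ) * (2 * (1 / (k : ℝ)) + 2 * B * (1 / ((k : ℝ) * (2 * L + y - Real.log k)))) +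
          (2 + 2 * B / Av) + 9 / 16 * f * c2 * W0 * HH n * (1 / (k : ℝ))) := by
        apply Finset.sum_le_sum
        intro k hk
        have hk1 := hKk k hk
        have hk0 : (0 : ℝ) < k := by exact_mod_cast hk1
        obtain ⟨hx36, hxf⟩ := hx k hk
        set q := c2 * (HH n * (1 / (k : ℝ))) with hq
        have hsx : 6 ≤ √q := Real.le_sqrt_of_sq_le (by norm_num; exact hx36)
        have hDk : D k = ⌊√q⌋₊ := rfl
        have hD6 : 6 ≤ D k := by
          rw [hDk]
          exact Nat.le_floor (by exact_mod_cast hsx)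
        have hc := count_le n k (D k) hk1 (by omega)
        have hlogk : Real.log k ≤ L + 2 * (1 / n) - Real.log 3 :=
          (Real.log_le_log hk0 (le_v n k hk)).trans hlv
        set g := 1 / 2 * (2 * L + y - Real.log k) with hg
        have hgA : Av ≤ 2 * g := by rw [hg]; linarith
        have hg0 : 0 < g := by linarith
        have hGg : g ≤ ∑ m ∈ Finset.Icc 1 (D k), 1 / (m : ℝ) := by
          have h5 := harm_ge (√q) hsx
          rw [← hDk] at h5
          have h6 : Real.log (√q) = 1 / 2 * (Real.log c2 + (Real.log (HH n) - Real.log k)) := by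
            rw [Real.log_sqrt (by positivity), hq, Real.log_mul hc2.ne' (by positivity),
              Real.log_mul (by positivity) (by positivity), one_div, Real.log_inv]
            ring
          rw [h6, hyc] at h5
          rw [hg]
          linarith
        have hV : ((D k - D k / 4 : ℕ) : ℝ) ^ 2 ≤ 9 / 16 * (f * q) := by
          have h5 : ((D k - D k / 4 : ℕ) : ℝ) ≤ 3 / 4 * (√q + 1) := by
            have h6 : 4 * (D k - D k / 4) ≤ 3 * D k + 3 := by omega
            have h7 : (4 : ℝ) * ((D k - D k / 4 : ℕ) : ℝ) ≤ 3 * (D k : ℝ) + 3 := by exact_mod_cast h6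
            have h8 : (D k : ℝ) ≤ √q := Nat.floor_le (Real.sqrt_nonneg _)
            linarith
          calc ((D k - D k / 4 : ℕ) : ℝ) ^ 2 ≤ (3 / 4 * (√q + 1)) ^ 2 := by gcongr
            _ = 9 / 16 * (√q + 1) ^ 2 := by ring
            _ ≤ 9 / 16 * (f * q) := by gcongr
        have hw1 : Real.log (NN n) - Real.log k ≤ 2 * g + B := by
          have a1 := log_NN n (by omega)
          rw [← hL] at a1
          rw [hg, hBdef]
          linarith
        have hw2 : Real.log (NN n) - Real.log k ≤ W0 := by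
          have a1 := log_NN n (by omega)
          have hu0 : 0 < uu n := by linarith
          have a2 := Real.log_le_log hu0 (h4 k hk).le
          rw [← hL] at a1
          rw [hW0]
          linarith
        have hH1 : 0 ≤ (HH n : ℝ) * (1 / (k : ℝ)) + 1 := by positivity
        have hc2' : ((HH n : ℝ) * (1 / (k : ℝ)) + 1) / (∑ m ∈ Finset.Icc 1 (D k), 1 / (m : ℝ)) ≤
            ((HH n : ℝ) * (1 / (k : ℝ)) + 1) / g := div_le_div_of_nonneg_left hH1 hg0 hGg
        have hfq : 0 ≤ 9 / 16 * (f * q) := by positivity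
        calc ((WW n k (D k)).card : ℝ) * (Real.log (NN n) - Real.log k)
            ≤ (((HH n : ℝ) * (1 / (k : ℝ)) + 1) / g + 9 / 16 * (f * q)) *
                max (Real.log (NN n) - Real.log k) 0 := by
              have h5 : ((WW n k (D k)).card : ℝ) ≤
                ((HH n : ℝ) * (1 / (k : ℝ)) + 1) / g + 9 / 16 * (f * q) := by linarith
              calc ((WW n k (D k)).card : ℝ) * (Real.log (NN n) - Real.log k)
                  ≤ ((WW n k (D k)).card : ℝ) * max (Real.log (NN n) - Real.log k) 0 := by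
                    gcongr
                    exact le_max_left _ _
                _ ≤ _ := by
                    apply mul_le_mul_of_nonneg_right h5 (le_max_right _ _)
          _ = ((HH n : ℝ) * (1 / (k : ℝ)) + 1) / g * max (Real.log (NN n) - Real.log k) 0 +
                9 / 16 * (f * q) * max (Real.log (NN n) - Real.log k) 0 := by ring
          _ ≤ ((HH n : ℝ) * (1 / (k : ℝ)) + 1) / g * (2 * g + B) + 9 / 16 * (f * q) * W0 := by
              have m1 : max (Real.log (NN n) - Real.log k) 0 ≤ 2 * g + B :=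
                max_le hw1 (by linarith)
              have m2 : max (Real.log (NN n) - Real.log k) 0 ≤ W0 := max_le hw2 hW0n
              gcongr
          _ ≤ _ := by
              have e5 : ((HH n : ℝ) * (1 / (k : ℝ)) + 1) / g * (2 * g + B) =
                (HH n : ℝ) * (2 * (1 / (k : ℝ)) + B / g * (1 / (k : ℝ))) + (2 + B / g) := by
                field_simp
              have e6 : B / g * (1 / (k : ℝ)) = 2 * B * (1 / ((k : ℝ) * (2 * L + y - Real.log k))) := by
                rw [show 2 * L + y - Real.log k = 2 * g by rw [hg]; ring]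
                field_simp
              have e7 : B / g ≤ 2 * B / Av := by
                rw [div_le_div_iff₀ hg0 hAv0]
                calc B * Av ≤ B * (2 * g) := mul_le_mul_of_nonneg_left hgA hB
                  _ = 2 * B * g := by ring
              rw [e5, e6]
              have e8 : 9 / 16 * (f * q) * W0 = 9 / 16 * f * c2 * W0 * HH n * (1 / (k : ℝ)) := by
                rw [hq]; ring
              rw [e8]
              linarith
    _ = (HH n : ℝ) * (2 * (∑ k ∈ KK n, 1 / (k : ℝ)) +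
          2 * B * (∑ k ∈ KK n, 1 / ((k : ℝ) * (2 * L + y - Real.log k)))) +
          (KK n).card * (2 + 2 * B / Av) +
          9 / 16 * f * c2 * W0 * HH n * (∑ k ∈ KK n, 1 / (k : ℝ)) := by
        rw [Finset.sum_add_distrib, Finset.sum_add_distrib, ← Finset.mul_sum,
          Finset.sum_add_distrib, ← Finset.mul_sum, ← Finset.mul_sum, ← Finset.mul_sum,
          Finset.sum_const, nsmul_eq_mul]
    _ ≤ (HH n : ℝ) * (2 * s1 + 2 * B * s2) + (e * HH n) * (2 + 2 * B / Av) +
          9 / 16 * f * c2 * W0 * HH n * s1 := by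
        have hBA : 0 ≤ 2 * B / Av := by positivity
        gcongr
    _ = _ := by ring

end H50LQ
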