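import Pool.Agent.H50.LP.Core

/-! Brun-Titchmarsh with a sharper main term, a sharper binomial bound, and a harmonic type sum. -/

set_option autoImplicit false

namespace H50LQ

open Finset Pool.Agent.H17

open BoundingSieve in
/-- **Brun-Titchmarsh**, explicit. -/
theorem bt (y z D : ℕ) (hD : 1 ≤ D) :
    ((((Finset.Ioc y (y + z)).filter (fun p => p.Prime ∧ D < p)).card : ℕ) : ℝ) ≤
      z / (∑ m ∈ Finset.Icc 1 D, 1 / (m : ℝ)) + ((D - D / 4 : ℕ) : ℝ) ^ 2 := by
  set I := Finset.Ioc y (y + z) with hI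
  have h1 := Selb.selberg_bound (s := svb 1 D I (fun _ => 1) (fun _ => zero_le_one) z) (z := D) (by omega)
  rw [svb_GG] at h1
  set G := Op (PPb 1 D) (fun p => 1 / ((p : ℝ) - 1)) one1 D with hG
  have h3 : ∑ m ∈ Finset.Icc 1 D, 1 / (m : ℝ) ≤ G := by
    have h4 := Hs_le_Op (S := PPb 1 D) (u := D) (fun p hp => (mem_PPb.mp hp).2.1) one1_mono one1_nonneg (by
      intro p hp hpD
      rw [mem_PPb]
      exact ⟨hpD, hp, fun h => hp.one_lt.ne' (Nat.dvd_one.mp h)⟩)
    refine le_trans (le_of_eq ?_) h4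
    unfold Hs
    apply Finset.sum_congr rfl
    intro m hm
    rw [Finset.mem_Icc] at hm
    unfold one1
    rw [if_pos (show 1 ≤ D / m from Nat.div_pos hm.2 hm.1), mul_one]
  have hS0 : 0 < ∑ m ∈ Finset.Icc 1 D, 1 / (m : ℝ) := by
    apply Finset.sum_pos
    · intro m hm
      rw [Finset.mem_Icc] at hm
      have : (0 : ℝ) < m := by exact_mod_cast hm.1
      positivity
    · exact ⟨1, Finset.mem_Icc.mpr ⟨le_rfl, hD⟩⟩
  have h4 : (z : ℝ) * G⁻¹ ≤ z / (∑ m ∈ Finset.Icc 1 D, 1 / (m : ℝ)) := by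
    rw [← div_eq_mul_inv]
    exact div_le_div_of_nonneg_left (Nat.cast_nonneg z) hS0 h3
  have h5 : ((((Finset.Ioc y (y + z)).filter (fun p => p.Prime ∧ D < p)).card : ℕ) : ℝ) ≤
      (svb 1 D I (fun _ => 1) (fun _ => zero_le_one) z).siftedSum := by
    unfold BoundingSieve.siftedSum
    show _ ≤ ∑ n ∈ I, (if Nat.Coprime (WWb 1 D) n then (1 : ℝ) else 0)
    rw [← Finset.sum_filter, Finset.sum_const, nsmul_eq_mul, mul_one]
    have : (I.filter (fun p => p.Prime ∧ D < p)) ⊆ I.filter (fun n => Nat.Coprime (WWb 1 D) n) := by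
      intro n hn
      rw [Finset.mem_filter] at hn ⊢
      refine ⟨hn.1, ?_⟩
      unfold WWb
      apply Nat.Coprime.prod_left
      intro p hp
      rw [mem_PPb] at hp
      rw [Nat.coprime_primes hp.2.1 hn.2.1]
      have := hn.2.2
      omega
    exact_mod_cast Finset.card_le_card this
  have h6 : (svb 1 D I (fun _ => 1) (fun _ => zero_le_one) (z : ℝ)).totalMass = z := rfl
  rw [h6] at h1
  have h7 : ∑ d1 ∈ (Nat.divisors (WWb 1 D)).filter (fun l => l ≤ D),
      ∑ d2 ∈ (Nat.divisors (WWb 1 D)).filter (fun l => l ≤ D),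
        |(svb 1 D I (fun _ => 1) (fun _ => zero_le_one) (z : ℝ)).rem (d1.lcm d2)| ≤
        ((D - D / 4 : ℕ) : ℝ) ^ 2 := by
    set V := (Nat.divisors (WWb 1 D)).filter (fun l => l ≤ D) with hV
    have hVc : (V.card : ℝ) ≤ ((D - D / 4 : ℕ) : ℝ) := by
      have : V ⊆ Finset.Ioc 0 D \ (Finset.Ioc 0 D).filter (fun e => 4 ∣ e) := by
        intro l hl
        rw [hV, Finset.mem_filter, Nat.mem_divisors] at hl
        have hsq : Squarefree l := Squarefree.squarefree_of_dvd hl.1.1 (squarefree_WWb 1 D)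
        rw [Finset.mem_sdiff, Finset.mem_filter, Finset.mem_Ioc]
        refine ⟨⟨Nat.pos_of_ne_zero hsq.ne_zero, hl.2⟩, ?_⟩
        rintro ⟨_, h4⟩
        have := hsq 2 (by simpa using h4)
        exact absurd this (by decide)
      have h := Finset.card_le_card this
      rw [Finset.card_sdiff_of_subset (Finset.filter_subset _ _), Nat.Ioc_filter_dvd_card_eq_div,
        Nat.card_Ioc] at h
      exact_mod_cast h
    have hb : ∀ d1 ∈ V, ∀ d2 ∈ V,
        |(svb 1 D I (fun _ => 1) (fun _ => zero_le_one) (z : ℝ)).rem (d1.lcm d2)| ≤ 1 := by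
      intro d1 hd1 d2 hd2
      rw [hV, Finset.mem_filter, Nat.mem_divisors] at hd1 hd2
      have h8 : d1.lcm d2 ∣ WWb 1 D := Nat.lcm_dvd hd1.1.1 hd2.1.1
      have hesq : Squarefree (d1.lcm d2) := Squarefree.squarefree_of_dvd h8 (squarefree_WWb 1 D)
      have he1 : 1 ≤ d1.lcm d2 := Nat.pos_of_ne_zero hesq.ne_zero
      generalize d1.lcm d2 = e at hesq he1
      have hrem : (svb 1 D I (fun _ => 1) (fun _ => zero_le_one) (z : ℝ)).rem e =
          ((((Finset.Ioc y (y + z)).filter (fun n => e ∣ n)).card : ℕ) : ℝ) - (z : ℝ) / e := by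
        unfold BoundingSieve.rem BoundingSieve.multSum
        show (∑ n ∈ I, (if e ∣ n then (1 : ℝ) else 0)) - nuOne e * z = _
        rw [← Finset.sum_filter, Finset.sum_const, nsmul_eq_mul, mul_one, nuOne_squarefree hesq]
        ring
      rw [hrem]
      exact count_dvd_Ioc y z e he1
    calc _ ≤ ∑ d1 ∈ V, ∑ d2 ∈ V, (1 : ℝ) :=
          Finset.sum_le_sum (fun d1 hd1 => Finset.sum_le_sum (fun d2 hd2 => hb d1 hd1 d2 hd2))
      _ = (V.card : ℝ) * V.card := by
          rw [Finset.sum_const, Finset.sum_const, nsmul_eq_mul, nsmul_eq_mul, mul_one]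
      _ ≤ ((D - D / 4 : ℕ) : ℝ) * ((D - D / 4 : ℕ) : ℝ) := by gcongr
      _ = ((D - D / 4 : ℕ) : ℝ) ^ 2 := by ring
  calc _ ≤ _ := h5
    _ ≤ (z : ℝ) * G⁻¹ + _ := h1
    _ ≤ _ := add_le_add h4 h7

/-- the harmonic sum up to `⌊x⌋`. -/
theorem harm_ge (x : ℝ) (hx : 6 ≤ x) :
    Real.log x + 1 / 2 ≤ ∑ m ∈ Finset.Icc 1 ⌊x⌋₊, 1 / (m : ℝ) := by
  have h1 := Real.one_half_lt_eulerMascheroniSeq_six
  have h6 : 6 ≤ ⌊x⌋₊ := Nat.le_floor (by exact_mod_cast hx)
  have h2 := Real.strictMono_eulerMascheroniSeq.monotone h6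
  have h3 : Real.eulerMascheroniSeq ⌊x⌋₊ = ((harmonic ⌊x⌋₊ : ℚ) : ℝ) - Real.log (⌊x⌋₊ + 1) := by
    simp [Real.eulerMascheroniSeq]
  have h4 : ((harmonic ⌊x⌋₊ : ℚ) : ℝ) = ∑ m ∈ Finset.Icc 1 ⌊x⌋₊, 1 / (m : ℝ) := by
    rw [harmonic_eq_sum_Icc]
    push_cast
    simp [one_div]
  have h5 : Real.log x ≤ Real.log (⌊x⌋₊ + 1) :=
    Real.log_le_log (by linarith) (Nat.lt_floor_add_one x).le
  rw [h4] at h3
  linarith

theorem log_factorial_le (H : ℕ) (hH : 1 ≤ H) :
    Real.log (H.factorial : ℕ) ≤ (H + 1) * Real.log H - H + 1 := by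
  induction H, hH using Nat.le_induction with
  | base => simp
  | succ H hH ih =>
    have hH0 : (0 : ℝ) < H := by exact_mod_cast hH
    rw [Nat.factorial_succ]
    push_cast
    rw [Real.log_mul (by positivity) (by exact_mod_cast (Nat.factorial_pos H).ne')]
    have h4 := Real.one_sub_inv_le_log_of_pos (x := ((H : ℝ) + 1) / H) (by positivity)
    rw [Real.log_div (by positivity) (by positivity)] at h4
    have h5 : 1 - (((H : ℝ) + 1) / H)⁻¹ = 1 / ((H : ℝ) + 1) := by
      field_simp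
      ring
    rw [h5, div_le_iff₀ (by positivity)] at h4
    nlinarith

/-- lower bound for the binomial coefficient -/
theorem lower (m H : ℕ) (hm : 1 ≤ m) (hH : 1 ≤ H) :
    (H : ℝ) * Real.log m + H ≤ (H + 1) * Real.log H + 1 + Real.log ((m + H).choose H : ℕ) := by
  have h1 := Nat.pow_sub_le_descFactorial (m + H) H
  rw [Nat.descFactorial_eq_factorial_mul_choose] at h1
  have h2 : m ^ H ≤ (m + H + 1 - H) ^ H := Nat.pow_le_pow_left (by omega) _
  have h3 : m ^ H ≤ H.factorial * (m + H).choose H := h2.trans h1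
  have h4 : (m : ℝ) ^ H ≤ (H.factorial : ℕ) * ((m + H).choose H : ℕ) := by exact_mod_cast h3
  have hm0 : (0 : ℝ) < m := by exact_mod_cast hm
  have hC : (0 : ℝ) < ((m + H).choose H : ℕ) := by
    exact_mod_cast Nat.choose_pos (by omega)
  have hF : (0 : ℝ) < (H.factorial : ℕ) := by exact_mod_cast Nat.factorial_pos H
  have h5 := Real.log_le_log (by positivity) h4
  rw [Real.log_mul hF.ne' hC.ne', Real.log_pow] at h5
  have h6 := log_factorial_le H hH
  linarith

/-- `∑ 1/(k (A - log k))` over integers between two reals. -/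
theorem sum_inv_log_le (K : Finset ℕ) (u v A : ℝ) (hu : 1 ≤ u) (hv : Real.log v + 1 / u < A)
    (hK : ∀ k ∈ K, u < k ∧ (k : ℝ) ≤ v) :
    ∑ k ∈ K, 1 / ((k : ℝ) * (A - Real.log k)) ≤ 1 / u * (1 / (A - Real.log v)) +
      (Real.log (A - 1 / u - Real.log u) - Real.log (A - 1 / u - Real.log v)) ∨ K = ∅ := by
  by_cases hne : K = ∅
  · right; exact hne
  left
  have hn : K.Nonempty := Finset.nonempty_iff_ne_empty.mpr hne
  set a := K.min' hn with ha
  set b := K.max' hn with hb
  have haK : a ∈ K := K.min'_mem hn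
  have hbK : b ∈ K := K.max'_mem hn
  have hab : a ≤ b := K.min'_le b hbK
  have hau : u < a := (hK a haK).1
  have hbv : (b : ℝ) ≤ v := (hK b hbK).2
  have ha1 : 1 < a := by
    have : (1 : ℝ) < a := by linarith
    exact_mod_cast this
  have hu0 : 0 < u := by linarith
  have ha0 : (0 : ℝ) < a := by linarith
  have hiu : 0 < 1 / u := by positivity
  have hlogv : ∀ c : ℕ, 1 ≤ c → c ≤ b → Real.log c ≤ Real.log v := by
    intro c hc hcb
    apply Real.log_le_log (by exact_mod_cast hc)
    have : (c : ℝ) ≤ b := by exact_mod_cast hcb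
    linarith
  have hsub : K ⊆ Finset.Icc a b := fun k hk =>
    Finset.mem_Icc.mpr ⟨K.min'_le k hk, K.le_max' k hk⟩
  have h1 : ∑ k ∈ K, 1 / ((k : ℝ) * (A - Real.log k)) ≤
      ∑ k ∈ Finset.Icc a b, 1 / ((k : ℝ) * (A - Real.log k)) := by
    apply Finset.sum_le_sum_of_subset_of_nonneg hsub
    intro k hk _
    rw [Finset.mem_Icc] at hk
    have h2 := hlogv k (by omega) hk.2
    have h3 : 0 < A - Real.log k := by linarith
    positivity
  have h2 : ∀ c : ℕ, a ≤ c → c ≤ b → ∑ k ∈ Finset.Icc a c, 1 / ((k : ℝ) * (A - Real.log k)) ≤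
      1 / ((a : ℝ) * (A - Real.log a)) +
        (Real.log (A - 1 / u - Real.log a) - Real.log (A - 1 / u - Real.log c)) := by
    intro c hc
    induction c, hc using Nat.le_induction with
    | base => intro _; simp
    | succ c hc ih =>
      intro hcb
      have ih := ih (by omega)
      rw [Finset.sum_Icc_succ_top (by omega)]
      have hc0 : (0 : ℝ) < c := by exact_mod_cast (by omega : 0 < c)
      have hcu : u < c := lt_of_lt_of_le hau (by exact_mod_cast hc)
      have h5 := hlogv (c + 1) (by omega) hcb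
      have h6 := hlogv c (by omega) (by omega)
      set x := A - 1 / u - Real.log c with hx
      set x' := A - 1 / u - Real.log ((c + 1 : ℕ) : ℝ) with hx'
      have hx0 : 0 < x := by linarith
      have hx0' : 0 < x' := by linarith
      have h7 : 1 - (x / x')⁻¹ ≤ Real.log (x / x') :=
        Real.one_sub_inv_le_log_of_pos (by positivity)
      rw [Real.log_div hx0.ne' hx0'.ne', inv_div] at h7
      -- `δ = log (c+1) - log c`
      have h8 : 1 / ((c + 1 : ℕ) : ℝ) ≤ Real.log ((c + 1 : ℕ) : ℝ) - Real.log c := by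
        have h4 := Real.one_sub_inv_le_log_of_pos (x := ((c + 1 : ℕ) : ℝ) / c) (by positivity)
        rw [Real.log_div (by positivity) (by positivity)] at h4
        have h5 : 1 - (((c + 1 : ℕ) : ℝ) / c)⁻¹ = 1 / ((c + 1 : ℕ) : ℝ) := by
          push_cast
          field_simp
          ring
        rw [h5] at h4
        exact h4
      have h9 : Real.log ((c + 1 : ℕ) : ℝ) - Real.log c ≤ 1 / u := by
        have h4 := Real.log_le_sub_one_of_pos (x := ((c + 1 : ℕ) : ℝ) / c) (by positivity)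
        rw [Real.log_div (by positivity) (by positivity)] at h4
        have h5 : ((c + 1 : ℕ) : ℝ) / c - 1 = 1 / (c : ℝ) := by
          push_cast
          field_simp
          ring
        rw [h5] at h4
        have h6 : 1 / (c : ℝ) ≤ 1 / u := one_div_le_one_div_of_le hu0 hcu.le
        linarith
      have h10 : x ≤ A - Real.log ((c + 1 : ℕ) : ℝ) := by linarith
      have h11 : 1 - x' / x = (x - x') / x := by field_simp
      rw [h11] at h7
      have h12 : x - x' = Real.log ((c + 1 : ℕ) : ℝ) - Real.log c := by rw [hx, hx']; ring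
      rw [h12] at h7
      have h13 : 1 / (((c + 1 : ℕ) : ℝ) * (A - Real.log ((c + 1 : ℕ) : ℝ))) ≤
          (Real.log ((c + 1 : ℕ) : ℝ) - Real.log c) / x := by
        rw [← div_div]
        have hc1 : (0 : ℝ) < ((c + 1 : ℕ) : ℝ) := by positivity
        exact div_le_div₀ (by
          have : 0 ≤ 1 / ((c + 1 : ℕ) : ℝ) := by positivity
          linarith) h8 hx0 h10
      linarith
  have h3 := h2 b hab le_rfl
  have hb0 : (0 : ℝ) < b := by exact_mod_cast (by omega : 0 < b)
  have hlb := hlogv b (by omega) le_rfl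
  have hla := hlogv a (by omega) hab
  have h4 : Real.log (A - 1 / u - Real.log v) ≤ Real.log (A - 1 / u - Real.log b) :=
    Real.log_le_log (by linarith) (by linarith)
  have h5 : Real.log (A - 1 / u - Real.log a) ≤ Real.log (A - 1 / u - Real.log u) := by
    apply Real.log_le_log (by linarith)
    have : Real.log u ≤ Real.log a := Real.log_le_log hu0 hau.le
    linarith
  have h6 : 1 / ((a : ℝ) * (A - Real.log a)) ≤ 1 / u * (1 / (A - Real.log v)) := by
    rw [one_div_mul_one_div]
    apply one_div_le_one_div_of_le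
    · have : 0 < A - Real.log v := by linarith
      positivity
    · apply mul_le_mul hau.le (by linarith) (by linarith) ha0.le
  linarith

end H50LQ
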