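import Pool.Agent.H50.LQ.RegC

/-! Very large `n`, and the main theorem. -/

set_option autoImplicit false

namespace H50LQ

open Finset H50LP

theorem poly2' (s : ℝ) (hs : 0 ≤ s) :
    4.8354 * s ^ 2 - 0.4247 * s + 0.0002 ≤
      (1 + s + s ^ 2 / 2 + s ^ 3 / 6 + s ^ 4 / 24 + s ^ 5 / 120) * (1.3386 * s + 0.3680) := by
  nlinarith [mul_nonneg hs (sq_nonneg (s - 1.27)), mul_nonneg (pow_nonneg hs 2) (sq_nonneg (s - 1.27)),
    mul_nonneg (pow_nonneg hs 3) (sq_nonneg (s - 1.27)), mul_nonneg (pow_nonneg hs 4) (sq_nonneg (s - 1.27)),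
    sq_nonneg (s - 0.96)]

theorem poly3 (s : ℝ) (hs : 0 ≤ s) :
    4.8354 * s ^ 2 - 0.4247 * s + 0.0002 ≤
      (1 + s + s ^ 2 / 2 + s ^ 3 / 6 + s ^ 4 / 24 + s ^ 5 / 120) * (1.198 * s + 0.717) := by
  nlinarith [mul_nonneg hs (sq_nonneg (s - 1.27)), mul_nonneg (pow_nonneg hs 2) (sq_nonneg (s - 1.27)),
    mul_nonneg (pow_nonneg hs 3) (sq_nonneg (s - 1.27)), mul_nonneg (pow_nonneg hs 4) (sq_nonneg (s - 1.27)),
    sq_nonneg (s - 0.96)]

theorem third (s a b : ℝ) (hs : 0 ≤ s) (hab : 0 ≤ a * s + b)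
    (h : 4.8354 * s ^ 2 - 0.4247 * s + 0.0002 ≤
      (1 + s + s ^ 2 / 2 + s ^ 3 / 6 + s ^ 4 / 24 + s ^ 5 / 120) * (a * s + b)) :
    Real.exp (-s) * (4.8354 * s ^ 2 - 0.4247 * s + 0.0002) ≤ a * s + b := by
  have h1 := exp5 s hs
  have h2 : Real.exp (-s) * Real.exp s = 1 := by rw [← Real.exp_add]; simp
  have h3 := Real.exp_pos (-s)
  have h4 : 4.8354 * s ^ 2 - 0.4247 * s + 0.0002 ≤ Real.exp s * (a * s + b) :=
    h.trans (mul_le_mul_of_nonneg_right h1 hab)
  calc Real.exp (-s) * (4.8354 * s ^ 2 - 0.4247 * s + 0.0002) ≤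
        Real.exp (-s) * (Real.exp s * (a * s + b)) := by gcongr
    _ = (Real.exp (-s) * Real.exp s) * (a * s + b) := by ring
    _ = a * s + b := by rw [h2, one_mul]

theorem regC2 (n : ℕ) (hn1 : 1 ≤ n) (hL20 : 20 ≤ Real.log n) :
    n ^ 2 ≤ 100 * ((SS (NN n) (HH n)).filter (fun p => ¬ p ^ 4 ≤ (n + 1) ^ 9)).card := by
  have hn0 : (0 : ℝ) < n := by exact_mod_cast hn1
  have hn' : (100000000 : ℝ) ≤ n := by
    have h1 : Real.exp 20 ≤ n := by
      rw [← Real.exp_log hn0]
      exact Real.exp_le_exp.mpr hL20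
    have h2 : Real.exp 20 = Real.exp 1 ^ 20 := by
      rw [← Real.exp_nat_mul]; norm_num
    have h3 := Real.exp_one_gt_d9
    rw [h2] at h1
    refine le_trans ?_ h1
    calc (100000000 : ℝ) ≤ 2.7182818283 ^ 20 := by norm_num
      _ ≤ _ := by gcongr
  have hn : 100000000 ≤ n := by exact_mod_cast hn'
  have h2l := Real.log_two_lt_d9
  have h2g := Real.log_two_gt_d9
  have hl3 := log3_le
  have hl3g := log3_ge
  have hl4 := log4_eq
  have hlg := lg_le
  have hE := E_bound n 100000000 0.00188 (by norm_num) hn (by norm_num) (by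
    have h1 : Real.log (100000001 : ℝ) ≤ Real.log (2 ^ 27) :=
      Real.log_le_log (by norm_num) (by norm_num)
    rw [Real.log_pow] at h1
    have h2 : (10000 : ℝ) ≤ √(100000001 : ℝ) := Real.le_sqrt_of_sq_le (by norm_num)
    have e : (((100000000 : ℕ) : ℝ) + 1) = 100000001 := by norm_num
    rw [e]
    push_cast at h1
    linarith)
  have hU := U_ok n 100000000 (by norm_num) hn 100000 (by norm_num)
  have hi : 1 / (n : ℝ) ≤ 1 / 100000000 := one_div_le_one_div_of_le (by norm_num) hn'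
  have hT := core n (by omega) 100000 1.001 (1 / 100000000) (by norm_num) hU hi (by norm_num)
    (by norm_num) (by linarith) (by
    intro q hq
    have h1 : (3000000 : ℝ) ≤ Real.exp (0.98 * Real.log n - 4) := by
      have h2 : Real.exp (15 : ℝ) ≤ Real.exp (0.98 * Real.log n - 4) :=
        Real.exp_le_exp.mpr (by linarith)
      refine le_trans ?_ h2
      have h3 : Real.exp (15 : ℝ) = Real.exp 1 ^ 15 := by
        rw [← Real.exp_nat_mul]
        norm_num
      rw [h3]
      have h4 := Real.exp_one_gt_d9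
      calc (3000000 : ℝ) ≤ 2.7182818283 ^ 15 := by norm_num
        _ ≤ _ := by gcongr
    have h2 : (8000000 : ℝ) ≤ q := by linarith
    have h3 : (2500 : ℝ) ≤ √q := Real.le_sqrt_of_sq_le (by norm_num; linarith)
    have h4 : √q * √q = q := Real.mul_self_sqrt (by linarith)
    refine ⟨by linarith, ?_⟩
    nlinarith)
  apply reduce n (by omega) _ _ hE hT
  set L := Real.log n with hLd
  set s := L / 50 with hs
  have hs0 : 0.4 ≤ s := by rw [hs]; linarith
  have hLs : L = 50 * s := by rw [hs]; ring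
  have hspos : 0 ≤ s := by linarith
  have hexp : Real.exp (-4 - s) ≤ 0.01832 * Real.exp (-s) := by
    rw [show -4 - s = -4 + -s by ring, Real.exp_add]
    have h1 := exp4
    have h3 := Real.exp_pos (-s)
    gcongr
  have ht : 9 / 16 * 1.001 * (Real.exp (-4 - s) / 3) * (9 / 4 * L + 21 / 4 * (1 / 100000000)) *
          (1 / 4 * L - Real.log 3 + 17 / 4 * (1 / 100000000) + 1 / 100000) ≤
          Real.exp (-s) * (4.8354 * s ^ 2 - 0.4247 * s + 0.0002) := by
    have h1 : 0 < 9 / 4 * L + 21 / 4 * (1 / 100000000) := by linarith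
    have h2 : 0 ≤ 1 / 4 * L - Real.log 3 + 17 / 4 * (1 / 100000000) + 1 / 100000 := by
      norm_num
      linarith
    have h3 : 1 / 4 * L - Real.log 3 + 17 / 4 * (1 / 100000000) + 1 / 100000 ≤ 12.5 * s - 1.0985 := by
      norm_num
      linarith
    have h4 : 9 / 4 * L + 21 / 4 * (1 / 100000000) ≤ 112.5 * s + 0.000001 := by
      norm_num
      linarith
    have h5 : 9 / 16 * 1.001 * (Real.exp (-4 - s) / 3) ≤ 0.00343847 * Real.exp (-s) := by
      have := Real.exp_pos (-s)
      norm_num at hexp ⊢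
      linarith
    have h6 : 0 ≤ 9 / 16 * 1.001 * (Real.exp (-4 - s) / 3) := by positivity
    have h7 : 0 < Real.exp (-s) := Real.exp_pos _
    calc _ ≤ (0.00343847 * Real.exp (-s)) * (112.5 * s + 0.000001) * (12.5 * s - 1.0985) := by
          gcongr
      _ = Real.exp (-s) * (0.00343847 * ((112.5 * s + 0.000001) * (12.5 * s - 1.0985))) := by ring
      _ ≤ _ := by
        apply mul_le_mul_of_nonneg_left _ h7.le
        nlinarith
  have h2n : 2 / (n : ℝ) = 2 * (1 / n) := by ring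
  rw [h2n]
  have hlgs : 2 * (1.02 * L + 3 + 3 * (1 / 100000000)) * Real.log (5 / 4) ≤
      2 * (1.02 * L + 3 + 3 * (1 / 100000000)) * 0.22315 := by
    apply mul_le_mul_of_nonneg_left hlg
    linarith
  rcases le_total 0 (1 / 5 * (-3 - s) + Real.log 3 - 1 / 100000 - 19 / 5 * (1 / 100000000)) with hw | hw
  · have hq := ht.trans (third s 1.3386 0.3680 hspos (by linarith) (poly2' s hspos))
    have hmin : min (1 / 5 * (-3 - s) + Real.log 3 - 1 / 100000 - 19 / 5 * (1 / 100000000))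
      (1.35 * (1 / 5 * (-3 - s) + Real.log 3 - 1 / 100000 - 19 / 5 * (1 / 100000000))) =
      1 / 5 * (-3 - s) + Real.log 3 - 1 / 100000 - 19 / 5 * (1 / 100000000) :=
      min_eq_left (by linarith)
    rw [hmin]
    norm_num at hq hlgs hi ⊢
    linarith
  · have hq := ht.trans (third s 1.198 0.717 hspos (by linarith) (poly3 s hspos))
    have hmin : min (1 / 5 * (-3 - s) + Real.log 3 - 1 / 100000 - 19 / 5 * (1 / 100000000))
      (1.35 * (1 / 5 * (-3 - s) + Real.log 3 - 1 / 100000 - 19 / 5 * (1 / 100000000))) =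
      1.35 * (1 / 5 * (-3 - s) + Real.log 3 - 1 / 100000 - 19 / 5 * (1 / 100000000)) :=
      min_eq_right (by linarith)
    rw [hmin]
    norm_num at hq hlgs hi ⊢
    linarith

/-- the main theorem -/
theorem main (n : ℕ) (hn : 1 ≤ n) : n ^ 2 ≤ 100 * (AA n).ncard := by
  rcases Nat.lt_or_ge n 32 with h | h
  · exact small n hn (by omega)
  refine le_trans ?_ (Nat.mul_le_mul_left 100 (inj n hn))
  rcases Nat.lt_or_ge n 64 with h2 | h2
  · exact regA n h (by omega)
  rcases Nat.lt_or_ge n 300 with h3 | h3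
  · exact regB1 n h2 (by omega)
  rcases Nat.lt_or_ge n 600 with h4 | h4
  · exact regB2 n h3 (by omega)
  rcases Nat.lt_or_ge n 1000 with h5 | h5
  · exact regB3 n h4 (by omega)
  rcases le_total (Real.log n) 20 with h6 | h6
  · exact regC1 n h5 h6
  · exact regC2 n hn h6

end H50LQ
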