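import Pool.Agent.H50.LQ.Main
import Pool.Agent.H50.LP.Inj

/-! From large primes to integers with a large prime factor, and the range `n ≤ 31`. -/

set_option autoImplicit false

namespace H50LQ

open Finset H50LP

/-- integers `a` strictly between the cubes with a prime factor `> a^(3/4)` -/
def AA (n : ℕ) : Set ℕ :=
  {a : ℕ | n ^ 3 < a ∧ a < (n + 1) ^ 3 ∧ ∃ p, p.Prime ∧ p ∣ a ∧ a ^ 3 < p ^ 4}

theorem finite_AA (n : ℕ) : (AA n).Finite :=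
  (Set.finite_Ioo (n ^ 3) ((n + 1) ^ 3)).subset (fun _ ha => ⟨ha.1, ha.2.1⟩)

theorem inj (n : ℕ) (hn : 1 ≤ n) :
    ((SS (NN n) (HH n)).filter (fun p => ¬ p ^ 4 ≤ (n + 1) ^ 9)).card ≤ (AA n).ncard := by
  set S2 := (SS (NN n) (HH n)).filter (fun p => ¬ p ^ 4 ≤ (n + 1) ^ 9) with hS2
  have hmem : ∀ p ∈ S2, p.Prime ∧ 3 * n ^ 2 + 3 * n < p ∧ (n + 1) ^ 9 < p ^ 4 ∧
      p ∣ (n ^ 3 + (3 * n ^ 2 + 3 * n)).choose (3 * n ^ 2 + 3 * n) := by
    intro p hp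
    rw [hS2, mem_filter] at hp
    unfold SS at hp
    rw [mem_filter] at hp
    exact ⟨hp.1.2.1, hp.1.2.2.1, not_le.mp hp.2, hp.1.2.2.2⟩
  have hcube : (n + 1) ^ 3 = n ^ 3 + (3 * n ^ 2 + 3 * n) + 1 := by ring
  have hex : ∀ p ∈ S2, ∃ a, n ^ 3 < a ∧ a < (n + 1) ^ 3 ∧ p ∣ a := by
    intro p hp
    obtain ⟨h1, h2, h3, h4⟩ := hmem p hp
    obtain ⟨a, ha1, ha2, ha3⟩ := exists_multiple (n ^ 3) (3 * n ^ 2 + 3 * n) p h1 h4
    exact ⟨a, ha1, by omega, ha3⟩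
  choose! f hf using hex
  rw [← Set.ncard_coe_finset]
  apply Set.ncard_le_ncard_of_injOn f _ _ (finite_AA n)
  · intro p hp
    rw [mem_coe] at hp
    obtain ⟨h1, h2, h3⟩ := hf p hp
    refine ⟨h1, h2, p, (hmem p hp).1, h3, ?_⟩
    calc (f p) ^ 3 ≤ ((n + 1) ^ 3) ^ 3 := Nat.pow_le_pow_left h2.le 3
      _ = (n + 1) ^ 9 := by ring
      _ < p ^ 4 := (hmem p hp).2.2.1
  · intro p hp q hq hpq
    rw [mem_coe] at hp hq
    by_contra hne
    obtain ⟨h1, h2, h3⟩ := hf p hp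
    obtain ⟨h4, h5, h6⟩ := hf q hq
    rw [← hpq] at h6
    obtain ⟨p1, p2, -, -⟩ := hmem p hp
    obtain ⟨q1, q2, -, -⟩ := hmem q hq
    have h7 : p * q ∣ f p :=
      Nat.Coprime.mul_dvd_of_dvd_of_dvd ((Nat.coprime_primes p1 q1).mpr hne) h3 h6
    have h8 : p * q ≤ f p := Nat.le_of_dvd (by omega) h7
    have h9 : (3 * n ^ 2 + 3 * n) * (3 * n ^ 2 + 3 * n) ≤ p * q := Nat.mul_le_mul p2.le q2.le
    have h10 : (n + 1) ^ 3 ≤ (3 * n ^ 2 + 3 * n) * (3 * n ^ 2 + 3 * n) := by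
      have e : (3 * n ^ 2 + 3 * n) * (3 * n ^ 2 + 3 * n) = (9 * n ^ 2) * (n + 1) ^ 2 := by ring
      rw [e, pow_succ, mul_comm]
      apply Nat.mul_le_mul_right
      nlinarith
    omega

theorem small (n : ℕ) (hn : 1 ≤ n) (h31 : n ≤ 31) : n ^ 2 ≤ 100 * (AA n).ncard := by
  have h1 := check n (by rw [List.mem_range'_1]; omega)
  have h2 : n ^ 2 ≤ 20 * (AA n).ncard := by
    refine h1.trans (Nat.mul_le_mul_left _ ?_)
    have hnd : ((List.range' (n ^ 3 + 1) (3 * n ^ 2 / 4 + 3)).filter tst).Nodup :=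
      List.Nodup.filter _ (List.nodup_range' (step := 1) (by norm_num))
    rw [← List.toFinset_card_of_nodup hnd, ← Set.ncard_coe_finset]
    apply Set.ncard_le_ncard _ (finite_AA n)
    intro a ha
    rw [mem_coe, List.mem_toFinset, List.mem_filter, List.mem_range'_1] at ha
    obtain ⟨⟨ha1, ha2⟩, ha3⟩ := ha
    have hcube : (n + 1) ^ 3 = n ^ 3 + 3 * n ^ 2 + 3 * n + 1 := by ring
    have h3 : a < (n + 1) ^ 3 := by omega
    have h4 : (n + 1) ^ 3 ≤ 32 ^ 3 := Nat.pow_le_pow_left (by omega) 3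
    have hn3 : 1 ≤ n ^ 3 := Nat.one_le_pow _ _ (by omega)
    refine ⟨by omega, h3, a, tst_prime a (by omega) (by norm_num at h4; omega) ha3, dvd_rfl, ?_⟩
    exact Nat.pow_lt_pow_right (by omega) (by norm_num)
  omega

theorem KK_empty (n : ℕ) (hn : 32 ≤ n) (h : n ≤ 63) : KK n = ∅ := by
  unfold KK
  rw [Finset.filter_eq_empty_iff]
  intro k hk
  rw [Finset.mem_Icc] at hk
  rintro ⟨h1, h2⟩
  have h5 : ∀ j ∈ List.range' 32 32, ((j + 2) / 3) ^ 4 * (j + 1) ^ 9 ≤ j ^ 12 := by decide +kernel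
  have h6 := h5 n (by rw [List.mem_range'_1]; omega)
  have h7 : k ≤ (n + 2) / 3 := by omega
  have h8 : k ^ 4 * (n + 1) ^ 9 ≤ ((n + 2) / 3) ^ 4 * (n + 1) ^ 9 :=
    Nat.mul_le_mul_right _ (Nat.pow_le_pow_left h7 4)
  omega

end H50LQ
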