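import Pool.Agent.H50.LQ.Bt

/-! Counting the large primes. -/

set_option autoImplicit false

namespace H50LQ

open Finset H50LP

/-- possible cofactors of the primes `p` with `p^4 ≤ (n+1)^9` -/
def KK (n : ℕ) : Finset ℕ :=
  (Finset.Icc 1 n).filter (fun k => n ^ 12 < k ^ 4 * (n + 1) ^ 9 ∧ 3 * k ≤ n + 2)

/-- `3n²+3n` -/
def HH (n : ℕ) : ℕ := 3 * n ^ 2 + 3 * n

/-- `(n+1)³ - 1` -/
def NN (n : ℕ) : ℕ := n ^ 3 + HH n

theorem cover (n p a : ℕ) (hn : 1 ≤ n) (hpH : HH n < p)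
    (hy : p ^ 4 ≤ (n + 1) ^ 9) (ha : n ^ 3 < a) (ha2 : a ≤ NN n) (hd : p ∣ a) :
    ∃ k ∈ KK n, p ∈ Finset.Ioc (n ^ 3 / k) (NN n / k) := by
  unfold NN HH at *
  obtain ⟨k, rfl⟩ := hd
  have hk : 0 < k := by
    rcases Nat.eq_zero_or_pos k with h | h
    · subst h
      simp at ha
    · exact h
  have h3k : 3 * k ≤ n + 2 := by
    by_contra hcon
    have h1 : n + 3 ≤ 3 * k := by omega
    have h2 : (n + 3) * (3 * n ^ 2 + 3 * n + 1) ≤ 3 * k * p := Nat.mul_le_mul h1 (by omega)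
    have h3 : (n + 3) * (3 * n ^ 2 + 3 * n + 1) = 3 * n ^ 3 + 12 * n ^ 2 + 10 * n + 3 := by ring
    have h4 : 3 * k * p = 3 * (p * k) := by ring
    rw [h3, h4] at h2
    have h5 : 3 * (p * k) ≤ 3 * (n ^ 3 + (3 * n ^ 2 + 3 * n)) := Nat.mul_le_mul_left _ ha2
    nlinarith [sq_nonneg n]
  have hk20 : n ^ 12 < k ^ 4 * (n + 1) ^ 9 := by
    have h1 : (p * k) ^ 4 ≤ k ^ 4 * (n + 1) ^ 9 := by
      rw [mul_pow, mul_comm]
      exact Nat.mul_le_mul_left _ hy
    have h2 : (n ^ 3) ^ 4 < (p * k) ^ 4 := Nat.pow_lt_pow_left ha (by norm_num)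
    have h3 : (n ^ 3) ^ 4 = n ^ 12 := by ring
    omega
  refine ⟨k, ?_, ?_⟩
  · unfold KK
    rw [mem_filter, Finset.mem_Icc]
    exact ⟨⟨hk, by omega⟩, hk20, h3k⟩
  · rw [Finset.mem_Ioc, Nat.div_lt_iff_lt_mul hk, Nat.le_div_iff_mul_le hk]
    exact ⟨ha, ha2⟩

/-- the primes counted with the cofactor `k` -/
def WW (n k D : ℕ) : Finset ℕ :=
  (Finset.Ioc (n ^ 3 / k) (NN n / k)).filter (fun p => p.Prime ∧ D < p)

theorem sum_small (n : ℕ) (hn : 1 ≤ n) (D : ℕ → ℕ) (hD : ∀ k ∈ KK n, D k ≤ n) :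
    ∑ p ∈ (SS (NN n) (HH n)).filter (fun p => p ^ 4 ≤ (n + 1) ^ 9), Real.log p ≤
      ∑ k ∈ KK n, ((WW n k (D k)).card : ℝ) * (Real.log (NN n) - Real.log k) := by
  set S1 := (SS (NN n) (HH n)).filter (fun p => p ^ 4 ≤ (n + 1) ^ 9) with hS1
  have hex : ∀ p ∈ S1, ∃ k, k ∈ KK n ∧ p ∈ WW n k (D k) := by
    intro p hp
    rw [hS1, mem_filter] at hp
    have hp1 := hp.1
    unfold SS at hp1
    rw [mem_filter, mem_range] at hp1
    obtain ⟨_, hpp, hHp, hd⟩ := hp1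
    obtain ⟨a, ha1, ha2, ha3⟩ := exists_multiple (n ^ 3) (HH n) p hpp hd
    obtain ⟨k, hk, hpk⟩ := cover n p a hn hHp hp.2 ha1 ha2 ha3
    refine ⟨k, hk, ?_⟩
    unfold WW
    refine mem_filter.mpr ⟨hpk, hpp, ?_⟩
    have h1 := hD k hk
    have h2 : n ≤ HH n := by unfold HH; omega
    omega
  choose! f hf using hex
  rw [← Finset.sum_fiberwise_of_maps_to (t := KK n) (g := f) (fun p hp => (hf p hp).1)]
  apply Finset.sum_le_sum
  intro k hk
  have hk1 : 1 ≤ k := by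
    unfold KK at hk
    rw [mem_filter, Finset.mem_Icc] at hk
    exact hk.1.1
  calc ∑ p ∈ S1.filter (fun p => f p = k), Real.log p
      ≤ ∑ p ∈ WW n k (D k), Real.log p := by
        apply Finset.sum_le_sum_of_subset_of_nonneg
        · intro p hp
          rw [mem_filter] at hp
          have := (hf p hp.1).2
          rw [hp.2] at this
          exact this
        · intro p _ _
          exact Real.log_natCast_nonneg p
    _ ≤ ((WW n k (D k)).card : ℝ) * (Real.log (NN n) - Real.log k) := by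
        rw [← nsmul_eq_mul]
        apply Finset.sum_le_card_nsmul
        intro p hp
        unfold WW at hp
        rw [mem_filter, Finset.mem_Ioc, Nat.le_div_iff_mul_le (by omega)] at hp
        have hp0 : (0 : ℝ) < p := by exact_mod_cast hp.2.1.pos
        have hk0 : (0 : ℝ) < k := by exact_mod_cast hk1
        have h1 : (p : ℝ) * k ≤ NN n := by exact_mod_cast hp.1.2
        have h2 := Real.log_le_log (by positivity) h1
        rw [Real.log_mul hp0.ne' hk0.ne'] at h2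
        linarith

theorem count_le (n k D : ℕ) (hk : 1 ≤ k) (hD : 1 ≤ D) :
    ((WW n k D).card : ℝ) ≤ ((HH n : ℝ) * (1 / (k : ℝ)) + 1) / (∑ m ∈ Finset.Icc 1 D, 1 / (m : ℝ)) +
      ((D - D / 4 : ℕ) : ℝ) ^ 2 := by
  have hk0 : (0 : ℝ) < k := by exact_mod_cast hk
  have hS0 : 0 < ∑ m ∈ Finset.Icc 1 D, 1 / (m : ℝ) := by
    apply Finset.sum_pos
    · intro m hm
      rw [Finset.mem_Icc] at hm
      have : (0 : ℝ) < m := by exact_mod_cast hm.1
      positivity
    · exact ⟨1, Finset.mem_Icc.mpr ⟨le_rfl, hD⟩⟩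
  obtain ⟨z, hz⟩ : ∃ z, NN n / k = n ^ 3 / k + z :=
    ⟨NN n / k - n ^ 3 / k, by
      have : n ^ 3 / k ≤ NN n / k := Nat.div_le_div_right (by unfold NN; omega)
      omega⟩
  have h4 := bt (n ^ 3 / k) z D hD
  rw [← hz] at h4
  have h5 : ((WW n k D).card : ℝ) ≤
      z / (∑ m ∈ Finset.Icc 1 D, 1 / (m : ℝ)) + ((D - D / 4 : ℕ) : ℝ) ^ 2 := h4
  refine h5.trans ?_
  have hz1 : (z : ℝ) ≤ (HH n : ℝ) * (1 / (k : ℝ)) + 1 := by
    have a1 : (((NN n / k : ℕ)) : ℝ) ≤ (NN n : ℝ) / k := Nat.cast_div_le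
    have a2 : (((n ^ 3 : ℕ)) : ℝ) / k < ((n ^ 3 / k : ℕ) : ℝ) + 1 := by
      rw [← Nat.floor_div_eq_div (K := ℝ)]
      exact Nat.lt_floor_add_one _
    have a3 : ((NN n / k : ℕ) : ℝ) = ((n ^ 3 / k : ℕ) : ℝ) + z := by exact_mod_cast hz
    have a4 : (NN n : ℝ) / k = ((n ^ 3 : ℕ) : ℝ) / k + (HH n : ℝ) * (1 / (k : ℝ)) := by
      unfold NN
      push_cast
      ring
    linarith
  gcongr

/-- reduction of the theorem to two estimates -/
theorem reduce (n : ℕ) (hn : 2 ≤ n) (E T : ℝ)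
    (hE : √((n : ℝ) + 1) * Real.log ((n : ℝ) + 1) ≤ E * n)
    (hT : ∑ p ∈ (SS (NN n) (HH n)).filter (fun p => p ^ 4 ≤ (n + 1) ^ 9), Real.log p ≤ T * HH n)
    (hfin : Real.log n + 1 / n ≤
      100 * (Real.log n - Real.log 3 - Real.log 4 + 1 - 2 / n - E - T)) :
    n ^ 2 ≤ 100 * ((SS (NN n) (HH n)).filter (fun p => ¬ p ^ 4 ≤ (n + 1) ^ 9)).card := by
  have hNH : NN n = n ^ 3 + HH n := rfl
  have hHdef : HH n = 3 * n ^ 2 + 3 * n := rfl
  generalize hHg : HH n = H at *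
  generalize hNg : NN n = N at *
  set x : ℝ := (n : ℝ) with hx
  set L := Real.log x with hL
  have hx1 : (1 : ℝ) ≤ x := by rw [hx]; exact_mod_cast (by omega : 1 ≤ n)
  have hx2 : (2 : ℝ) ≤ x := by rw [hx]; exact_mod_cast hn
  have hx0 : 0 < x := by linarith
  have hL0 : 0 ≤ L := Real.log_nonneg hx1
  have hHr : (H : ℝ) = 3 * x ^ 2 + 3 * x := by rw [hHdef, hx]; push_cast; ring
  have hH0 : 0 < (H : ℝ) := by rw [hHr]; positivity
  have hNr : (N : ℝ) + 1 = (x + 1) ^ 3 := by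
    rw [hNH]; push_cast; rw [hHr]; ring
  have hn3 : 1 ≤ n ^ 3 := Nat.one_le_pow _ _ (by omega)
  have hN1 : 1 ≤ N := by omega
  have hN0 : (1 : ℝ) ≤ N := by exact_mod_cast hN1
  have h1 := lower (n ^ 3) H hn3 (by omega)
  rw [← hNH] at h1
  have h2 := upper N H (by omega) hN1
  have hlm : Real.log ((n ^ 3 : ℕ) : ℝ) = 3 * L := by
    push_cast
    rw [Real.log_pow]
    push_cast
    ring
  have hlogx1 : Real.log (x + 1) ≤ L + 1 / x := by
    have h3 := Real.log_le_sub_one_of_pos (x := (x + 1) / x) (by positivity)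
    rw [Real.log_div (by positivity) (by positivity)] at h3
    have h4 : (x + 1) / x - 1 = 1 / x := by field_simp; ring
    linarith
  have hlogH : Real.log H ≤ Real.log 3 + 2 * L + 1 / x := by
    have h3 : (H : ℝ) = 3 * x * (x + 1) := by rw [hHr]; ring
    rw [h3, Real.log_mul (by positivity) (by positivity), Real.log_mul (by norm_num) (by positivity)]
    linarith
  have hlogN : Real.log N ≤ 3 * Real.log (x + 1) := by
    have h3 : Real.log N ≤ Real.log ((x + 1) ^ 3) := Real.log_le_log (by linarith) (by linarith)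
    rw [Real.log_pow] at h3
    push_cast at h3
    exact h3
  have hlogN0 : 0 ≤ Real.log N := Real.log_nonneg hN0
  have hsq : (Nat.sqrt N : ℝ) ≤ (x + 1) * √(x + 1) := by
    refine Real.nat_sqrt_le_real_sqrt.trans ?_
    have h3 : (N : ℝ) ≤ (x + 1) ^ 2 * (x + 1) := by nlinarith
    refine (Real.sqrt_le_sqrt h3).trans ?_
    rw [Real.sqrt_mul (by positivity), Real.sqrt_sq (by linarith)]
  have herr : (Nat.sqrt N : ℝ) * Real.log N ≤ E * H := by
    calc (Nat.sqrt N : ℝ) * Real.log N ≤ ((x + 1) * √(x + 1)) * (3 * Real.log (x + 1)) := by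
          gcongr
      _ = 3 * (x + 1) * (√(x + 1) * Real.log (x + 1)) := by ring
      _ ≤ 3 * (x + 1) * (E * x) := by gcongr
      _ = E * H := by rw [hHr]; ring
  -- `log H + 1 ≤ H / x`
  have hsm : Real.log H + 1 ≤ H * (1 / x) := by
    have e1 : (H : ℝ) * (1 / x) = 3 * x + 3 := by rw [hHr]; field_simp
    have e2 : L ≤ x - 1 := Real.log_le_sub_one_of_pos hx0
    have e3 : Real.log 3 ≤ 3 - 1 := Real.log_le_sub_one_of_pos (by norm_num)
    have e4 : 1 / x ≤ 1 := by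
      rw [div_le_one hx0]; exact hx1
    rw [e1]
    linarith
  have hW : (H : ℝ) * (L - Real.log 3 - Real.log 4 + 1 - 2 / x - E) ≤ ∑ p ∈ SS N H, Real.log p := by
    rw [hlm] at h1
    have h3 : (H : ℝ) * Real.log H ≤ H * (Real.log 3 + 2 * L + 1 / x) := by gcongr
    have h4 : (2 : ℝ) / x = 1 / x + 1 / x := by ring
    rw [h4]
    nlinarith
  have hsplit := Finset.sum_filter_add_sum_filter_not (SS N H) (fun p => p ^ 4 ≤ (n + 1) ^ 9)
    (fun p => Real.log p)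
  have hprime : ∀ p ∈ SS N H, p.Prime ∧ p ≤ N := by
    intro p hp
    unfold SS at hp
    rw [mem_filter, mem_range] at hp
    exact ⟨hp.2.1, by omega⟩
  have hb2 : ∑ p ∈ (SS N H).filter (fun p => ¬ p ^ 4 ≤ (n + 1) ^ 9), Real.log p ≤
      ((SS N H).filter (fun p => ¬ p ^ 4 ≤ (n + 1) ^ 9)).card * Real.log N := by
    rw [← nsmul_eq_mul]
    apply Finset.sum_le_card_nsmul
    intro p hp
    rw [mem_filter] at hp
    have hp0 : 0 < p := (hprime p hp.1).1.pos
    apply Real.log_le_log (by exact_mod_cast hp0)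
    exact_mod_cast (hprime p hp.1).2
  generalize ((SS N H).filter (fun p => ¬ p ^ 4 ≤ (n + 1) ^ 9)).card = c at hb2 ⊢
  generalize ∑ p ∈ (SS N H).filter (fun p => p ^ 4 ≤ (n + 1) ^ 9), Real.log p = s1 at hT hsplit
  generalize ∑ p ∈ (SS N H).filter (fun p => ¬ p ^ 4 ≤ (n + 1) ^ 9), Real.log p = s2 at hb2 hsplit
  have h5 : (H : ℝ) * (L - Real.log 3 - Real.log 4 + 1 - 2 / x - E - T) ≤ c * Real.log N := by
    have : (H : ℝ) * (L - Real.log 3 - Real.log 4 + 1 - 2 / x - E - T) =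
      (H : ℝ) * (L - Real.log 3 - Real.log 4 + 1 - 2 / x - E) - T * H := by ring
    linarith
  have h6 : (H : ℝ) * (L + 1 / x) ≤ 100 * (c * Real.log N) := by
    have h7 : (H : ℝ) * (L + 1 / x) ≤
        H * (100 * (L - Real.log 3 - Real.log 4 + 1 - 2 / x - E - T)) := by gcongr
    linarith
  have hpos : 0 < L + 1 / x := by positivity
  have h7 : (H : ℝ) * (L + 1 / x) ≤ 100 * (c * (3 * (L + 1 / x))) := by
    refine h6.trans ?_
    have : Real.log N ≤ 3 * (L + 1 / x) := by linarith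
    gcongr
  have h8 : (H : ℝ) ≤ 300 * c := by
    have : (H : ℝ) * (L + 1 / x) ≤ (300 * c) * (L + 1 / x) := by linarith
    exact le_of_mul_le_mul_right this hpos
  rw [hHr] at h8
  have h9 : x ^ 2 ≤ 100 * (c : ℝ) := by linarith
  rw [hx] at h9
  exact_mod_cast h9

end H50LQ
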