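import Pool.Agent.H50.LQ.Ana
import Pool.Agent.H50.LQ.Inj

/-! The ranges of `n`. -/

set_option autoImplicit false

namespace H50LQ

open Finset H50LP

theorem poly1 (s : ℝ) (h0 : 0.138 ≤ s) (h1 : s ≤ 0.4) :
    0.0045342 * (1 - s + s ^ 2 / 2) * (112.5 * s + 0.00525) * (12.5 * s - 1.0886) ≤ 1.3393 * s + 0.085 := by
  have e1 : 1 - s + s ^ 2 / 2 ≤ 0.9725 - 0.731 * s := by nlinarith [mul_nonneg (sub_nonneg.mpr h0) (sub_nonneg.mpr h1)]
  have e2 : 0 ≤ (112.5 * s + 0.00525) * (12.5 * s - 1.0886) := mul_nonneg (by linarith) (by linarith)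
  have e3 : 0.0045342 * (1 - s + s ^ 2 / 2) * (112.5 * s + 0.00525) * (12.5 * s - 1.0886) ≤
      0.0045342 * (0.9725 - 0.731 * s) * ((112.5 * s + 0.00525) * (12.5 * s - 1.0886)) := by
    have : 0.0045342 * (1 - s + s ^ 2 / 2) * (112.5 * s + 0.00525) * (12.5 * s - 1.0886) =
      0.0045342 * (1 - s + s ^ 2 / 2) * ((112.5 * s + 0.00525) * (12.5 * s - 1.0886)) := by ring
    rw [this]
    apply mul_le_mul_of_nonneg_right _ e2
    linarith
  refine e3.trans ?_
  rcases le_total s 0.27 with h | h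
  · have e4 : 0.0045342 * (0.9725 - 0.731 * s) ≤ 0.0039522 := by linarith
    refine (mul_le_mul_of_nonneg_right e4 e2).trans ?_
    nlinarith [mul_nonneg (sub_nonneg.mpr h0) (sub_nonneg.mpr h)]
  rcases le_total s 0.34 with h' | h'
  · have e4 : 0.0045342 * (0.9725 - 0.731 * s) ≤ 0.0035147 := by linarith
    refine (mul_le_mul_of_nonneg_right e4 e2).trans ?_
    nlinarith [mul_nonneg (sub_nonneg.mpr h) (sub_nonneg.mpr h')]
  · have e4 : 0.0045342 * (0.9725 - 0.731 * s) ≤ 0.0032828 := by linarith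
    refine (mul_le_mul_of_nonneg_right e4 e2).trans ?_
    nlinarith [mul_nonneg (sub_nonneg.mpr h') (sub_nonneg.mpr h1)]

theorem poly2 (s : ℝ) (hs : 0 ≤ s) :
    4.8354 * s ^ 2 - 0.4249 * s + 0.0002 * s + 0.0002 ≤ (1 + s + s ^ 2 / 2 + s ^ 3 / 6 + s ^ 4 / 24 + s ^ 5 / 120) * (1.3388 * s + 0.3680) := by
  nlinarith [mul_nonneg hs (sq_nonneg (s - 1.27)), mul_nonneg (pow_nonneg hs 2) (sq_nonneg (s - 1.27)),
    mul_nonneg (pow_nonneg hs 3) (sq_nonneg (s - 1.27)), mul_nonneg (pow_nonneg hs 4) (sq_nonneg (s - 1.27)),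
    sq_nonneg (s - 0.96)]

theorem exp5 (s : ℝ) (hs : 0 ≤ s) : 1 + s + s ^ 2 / 2 + s ^ 3 / 6 + s ^ 4 / 24 + s ^ 5 / 120 ≤ Real.exp s := by
  have h := Real.sum_le_exp_of_nonneg hs 6
  refine le_trans (le_of_eq ?_) h
  simp [Finset.sum_range_succ, Nat.factorial]
  
theorem expneg (s : ℝ) (hs : 0 ≤ s) : Real.exp (-s) ≤ 1 - s + s ^ 2 / 2 := by
  have h1 := Real.quadratic_le_exp_of_nonneg hs
  have h2 : Real.exp (-s) * Real.exp s = 1 := by rw [← Real.exp_add]; simp
  have h3 := Real.exp_pos s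
  have h4 : 1 ≤ (1 - s + s ^ 2 / 2) * Real.exp s := by
    have h5 : 0 < 1 - s + s ^ 2 / 2 := by nlinarith [sq_nonneg (s - 1)]
    calc (1 : ℝ) ≤ (1 - s + s ^ 2 / 2) * (1 + s + s ^ 2 / 2) := by nlinarith [pow_nonneg hs 4]
      _ ≤ _ := by gcongr
  by_contra hcon
  rw [not_le] at hcon
  nlinarith

theorem U_ok (n n0 : ℕ) (h0 : 1 ≤ n0) (h : n0 ≤ n) (U : ℝ)
    (hU : U ^ 4 * (1 + 1 / (n0 : ℝ)) ^ 9 ≤ (n0 : ℝ) ^ 3) :
    U ^ 4 * ((n : ℝ) + 1) ^ 9 ≤ (n : ℝ) ^ 12 := by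
  have h0' : (0 : ℝ) < n0 := by exact_mod_cast h0
  have h' : (n0 : ℝ) ≤ n := by exact_mod_cast h
  have hn0 : (0 : ℝ) < n := by linarith
  have h1 : (n : ℝ) + 1 ≤ n * (1 + 1 / (n0 : ℝ)) := by
    have : 1 ≤ (n : ℝ) * (1 / (n0 : ℝ)) := by
      rw [mul_one_div, le_div_iff₀ h0']
      linarith
    linarith
  have hU4 : 0 ≤ U ^ 4 := by positivity
  calc U ^ 4 * ((n : ℝ) + 1) ^ 9 ≤ U ^ 4 * (n * (1 + 1 / (n0 : ℝ))) ^ 9 := by gcongr
    _ = (U ^ 4 * (1 + 1 / (n0 : ℝ)) ^ 9) * (n : ℝ) ^ 9 := by rw [mul_pow]; ring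
    _ ≤ (n0 : ℝ) ^ 3 * (n : ℝ) ^ 9 := by gcongr
    _ ≤ (n : ℝ) ^ 3 * (n : ℝ) ^ 9 := by gcongr
    _ = (n : ℝ) ^ 12 := by ring

theorem regA (n : ℕ) (hn : 32 ≤ n) (h : n ≤ 63) :
    n ^ 2 ≤ 100 * ((SS (NN n) (HH n)).filter (fun p => ¬ p ^ 4 ≤ (n + 1) ^ 9)).card := by
  have hn' : (32 : ℝ) ≤ n := by exact_mod_cast hn
  have h2l := Real.log_two_lt_d9
  have h2g := Real.log_two_gt_d9
  have hl3 := log3_le
  have hl4 := log4_eq
  have hE := E_bound n 32 0.6088 (by norm_num) hn (by norm_num) (by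
    have h1 := Real.log_le_sub_one_of_pos (x := (33 : ℝ) / 2 ^ 5) (by positivity)
    rw [Real.log_div (by positivity) (by positivity), Real.log_pow] at h1
    norm_num at h1
    have h2 : (5.7445 : ℝ) ≤ √33 := Real.le_sqrt_of_sq_le (by norm_num)
    norm_num
    linarith)
  apply reduce n (by omega) _ 0 hE
  · have h1 := sum_small n (by omega) (fun _ => 1) (fun _ _ => by omega)
    rw [KK_empty n hn h, Finset.sum_empty] at h1
    rw [zero_mul]
    exact h1
  · have hL : Real.log 32 ≤ Real.log n := Real.log_le_log (by norm_num) hn'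
    rw [show (32 : ℝ) = 2 ^ 5 by norm_num, Real.log_pow] at hL
    push_cast at hL
    have h3 : 1 / (n : ℝ) ≤ 1 / 32 := one_div_le_one_div_of_le (by norm_num) hn'
    have h4 : 2 / (n : ℝ) = 2 * (1 / n) := by ring
    rw [h4]
    norm_num at h3 ⊢
    linarith

theorem regB (n n0 : ℕ) (c U i0 l0 l1 : ℝ) (h8 : 8 ≤ n0) (hn : n0 ≤ n) (hc : 0 ≤ c)
    (hlog : Real.log ((n0 : ℝ) + 1) ≤ c * √((n0 : ℝ) + 1)) (hU1 : 1 ≤ U)
    (hU : U ^ 4 * (1 + 1 / (n0 : ℝ)) ^ 9 ≤ (n0 : ℝ) ^ 3) (hi0 : i0 = 1 / (n0 : ℝ))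
    (hl0 : l0 ≤ Real.log n) (hl1 : Real.log n ≤ l1) (hl00 : 0 ≤ l0)
    (hpos : 0 ≤ l0 / 4 - 1.0986 + 17 / 4 * i0 + 1 / U)
    (hfin : ∀ L : ℝ, l0 ≤ L → L ≤ l1 → L + i0 ≤ 100 * (L - 1.09863 - 1.38630 + 1 - 2 * i0 - c * (1 + i0) -
      (9 / 4 * L + 21 / 4 * i0) * ((L / 4 - 1.0986 + 17 / 4 * i0 + 1 / U + (i0 + i0 ^ 2) / 9) * (12 / 25) +
        (i0 + i0 ^ 2)))) :
    n ^ 2 ≤ 100 * ((SS (NN n) (HH n)).filter (fun p => ¬ p ^ 4 ≤ (n + 1) ^ 9)).card := by
  have h0' : (8 : ℝ) ≤ n0 := by exact_mod_cast h8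
  have hn' : (n0 : ℝ) ≤ n := by exact_mod_cast hn
  have hn0 : (0 : ℝ) < n := by linarith
  have h2l := Real.log_two_lt_d9
  have hl3 := log3_le
  have hl3g := log3_ge
  have hl4 := log4_eq
  have hE := E_bound n n0 c h8 hn hc hlog
  rw [← hi0] at hE
  have hUn := U_ok n n0 (by omega) hn U hU
  have hi : 1 / (n : ℝ) ≤ i0 := by
    rw [hi0]; exact one_div_le_one_div_of_le (by linarith) hn'
  have hi00 : 0 < 1 / (n : ℝ) := by positivity
  set L := Real.log n with hL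
  have hL0 : 0 ≤ L := by linarith
  have he : ((n : ℝ) + 2) / (9 * n * (n + 1)) ≤ (i0 + i0 ^ 2) / 9 := by
    have e1 : ((n : ℝ) + 2) / (9 * n * (n + 1)) = 1 / 9 * (1 / n) * (1 + 1 / (n + 1)) := by
      field_simp
      ring
    have e2 : 1 / ((n : ℝ) + 1) ≤ 1 / n := one_div_le_one_div_of_le hn0 (by linarith)
    rw [e1]
    nlinarith
  have hs : ∑ k ∈ KK n, 1 / (k : ℝ) ≤ L / 4 - 1.0986 + 17 / 4 * i0 + 1 / U := by
    rcases s1_bound n (by omega) U hU1 hUn with h1 | h1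
    · rw [← hL] at h1
      linarith
    · rw [h1, Finset.sum_empty]
      linarith
  have hT := T_four n (by omega) _ hs U hU1 hUn
  rw [← hL] at hT
  have he2 := (e_facts n (by omega)).2
  set e := ((n : ℝ) + 2) / (9 * n * (n + 1)) with hed
  apply reduce n (by omega) _ _ hE hT
  rw [← hL]
  have hf := hfin L hl0 hl1
  have hU0 : 0 < 1 / U := by positivity
  have hd : 0 ≤ L / 4 - 1.0986 + 17 / 4 * i0 + 1 / U := by linarith
  have hT' : (9 / 4 * L + 21 / 4 * (1 / (n : ℝ))) * ((L / 4 - 1.0986 + 17 / 4 * i0 + 1 / U + e) / (25 / 12) + 9 * e)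
      ≤ (9 / 4 * L + 21 / 4 * i0) * ((L / 4 - 1.0986 + 17 / 4 * i0 + 1 / U + (i0 + i0 ^ 2) / 9) * (12 / 25) +
        (i0 + i0 ^ 2)) := by
    apply mul_le_mul
    · linarith
    · linarith
    · positivity
    · have : 0 < i0 := by linarith
      positivity
  have h4 : 2 / (n : ℝ) = 2 * (1 / n) := by ring
  rw [h4]
  linarith

theorem regB1 (n : ℕ) (hn : 64 ≤ n) (h : n ≤ 300) :
    n ^ 2 ≤ 100 * ((SS (NN n) (HH n)).filter (fun p => ¬ p ^ 4 ≤ (n + 1) ^ 9)).card := by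
  have hn' : (64 : ℝ) ≤ n := by exact_mod_cast hn
  have h' : (n : ℝ) ≤ 300 := by exact_mod_cast h
  have h2l := Real.log_two_lt_d9
  have h2g := Real.log_two_gt_d9
  have hl3 := log3_le
  have hl3g := log3_ge
  apply regB n 64 0.518 21.8 (1 / 64) 4.158 5.705 (by norm_num) hn (by norm_num) _ (by norm_num)
    (by norm_num) (by norm_num)
  · have h1 : Real.log 64 ≤ Real.log n := Real.log_le_log (by norm_num) hn'
    rw [show (64 : ℝ) = 2 ^ 6 by norm_num, Real.log_pow] at h1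
    norm_num at h1
    linarith
  · have h1 : Real.log n ≤ Real.log 300 := Real.log_le_log (by linarith) h'
    have h2 := Real.log_le_sub_one_of_pos (x := (300 : ℝ) / (2 ^ 5 * 3 ^ 2)) (by positivity)
    rw [Real.log_div (by positivity) (by positivity), Real.log_mul (by positivity) (by positivity),
      Real.log_pow, Real.log_pow] at h2
    norm_num at h2
    linarith
  · norm_num
  · norm_num
  · intro L hL0 hL1
    norm_num
    nlinarith [mul_nonneg (sub_nonneg.mpr hL0) (sub_nonneg.mpr hL1)]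
  · have h1 := Real.log_le_sub_one_of_pos (x := (65 : ℝ) / 2 ^ 6) (by positivity)
    rw [Real.log_div (by positivity) (by positivity), Real.log_pow] at h1
    norm_num at h1
    have h2 : (8.0622 : ℝ) ≤ √65 := Real.le_sqrt_of_sq_le (by norm_num)
    norm_num
    linarith

theorem regB2 (n : ℕ) (hn : 300 ≤ n) (h : n ≤ 600) :
    n ^ 2 ≤ 100 * ((SS (NN n) (HH n)).filter (fun p => ¬ p ^ 4 ≤ (n + 1) ^ 9)).card := by
  have hn' : (300 : ℝ) ≤ n := by exact_mod_cast hn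
  have h' : (n : ℝ) ≤ 600 := by exact_mod_cast h
  have h2l := Real.log_two_lt_d9
  have h2g := Real.log_two_gt_d9
  have hl3 := log3_le
  have hl3g := log3_ge
  apply regB n 300 0.3291 71.5 (1 / 300) 5.7 6.398 (by norm_num) hn (by norm_num) _ (by norm_num)
    (by norm_num) (by norm_num)
  · have h1 : Real.log 300 ≤ Real.log n := Real.log_le_log (by norm_num) hn'
    have h2 := Real.one_sub_inv_le_log_of_pos (x := (300 : ℝ) / (2 ^ 5 * 3 ^ 2)) (by positivity)
    rw [Real.log_div (by positivity) (by positivity), Real.log_mul (by positivity) (by positivity),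
      Real.log_pow, Real.log_pow] at h2
    norm_num at h2
    linarith
  · have h1 : Real.log n ≤ Real.log 600 := Real.log_le_log (by linarith) h'
    have h2 := Real.log_le_sub_one_of_pos (x := (600 : ℝ) / (2 ^ 6 * 3 ^ 2)) (by positivity)
    rw [Real.log_div (by positivity) (by positivity), Real.log_mul (by positivity) (by positivity),
      Real.log_pow, Real.log_pow] at h2
    norm_num at h2
    linarith
  · norm_num
  · norm_num
  · intro L hL0 hL1
    norm_num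
    nlinarith [mul_nonneg (sub_nonneg.mpr hL0) (sub_nonneg.mpr hL1)]
  · have h1 := Real.log_le_sub_one_of_pos (x := (301 : ℝ) / (2 ^ 5 * 3 ^ 2)) (by positivity)
    rw [Real.log_div (by positivity) (by positivity), Real.log_mul (by positivity) (by positivity),
      Real.log_pow, Real.log_pow] at h1
    norm_num at h1
    have h2 : (17.3493 : ℝ) ≤ √301 := Real.le_sqrt_of_sq_le (by norm_num)
    norm_num
    linarith

theorem regB3 (n : ℕ) (hn : 600 ≤ n) (h : n ≤ 1000) :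
    n ^ 2 ≤ 100 * ((SS (NN n) (HH n)).filter (fun p => ¬ p ^ 4 ≤ (n + 1) ^ 9)).card := by
  have hn' : (600 : ℝ) ≤ n := by exact_mod_cast hn
  have h' : (n : ℝ) ≤ 1000 := by exact_mod_cast h
  have h2l := Real.log_two_lt_d9
  have h2g := Real.log_two_gt_d9
  have hl3 := log3_le
  have hl3g := log3_ge
  apply regB n 600 0.2612 120.6 (1 / 600) 6.395 6.9081 (by norm_num) hn (by norm_num) _ (by norm_num)
    (by norm_num) (by norm_num)
  · have h1 : Real.log 600 ≤ Real.log n := Real.log_le_log (by norm_num) hn'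
    have h2 := Real.one_sub_inv_le_log_of_pos (x := (600 : ℝ) / (2 ^ 6 * 3 ^ 2)) (by positivity)
    rw [Real.log_div (by positivity) (by positivity), Real.log_mul (by positivity) (by positivity),
      Real.log_pow, Real.log_pow] at h2
    norm_num at h2
    linarith
  · have h1 : Real.log n ≤ Real.log 1000 := Real.log_le_log (by linarith) h'
    have h2 := Real.log_le_sub_one_of_pos (x := (1000 : ℝ) / 2 ^ 10) (by positivity)
    rw [Real.log_div (by positivity) (by positivity), Real.log_pow] at h2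
    norm_num at h2
    linarith
  · norm_num
  · norm_num
  · intro L hL0 hL1
    norm_num
    nlinarith [mul_nonneg (sub_nonneg.mpr hL0) (sub_nonneg.mpr hL1)]
  · have h1 := Real.log_le_sub_one_of_pos (x := (601 : ℝ) / (2 ^ 6 * 3 ^ 2)) (by positivity)
    rw [Real.log_div (by positivity) (by positivity), Real.log_mul (by positivity) (by positivity),
      Real.log_pow, Real.log_pow] at h1
    norm_num at h1
    have h2 : (24.5152 : ℝ) ≤ √601 := Real.le_sqrt_of_sq_le (by norm_num)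
    norm_num
    linarith

end H50LQ
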