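import Pool.Agent.H50.LQ.RegB

/-! Large `n`. -/

set_option autoImplicit false

namespace H50LQ

open Finset H50LP

theorem lg_le : Real.log (5 / 4) ≤ 0.22315 := by
  have h1 := Real.log_two_lt_d9
  have h2 := Real.log_le_sub_one_of_pos (x := ((5 : ℝ) / 4) ^ 28 / 2 ^ 9) (by positivity)
  rw [Real.log_div (by positivity) (by positivity), Real.log_pow, Real.log_pow] at h2
  norm_num at h2
  norm_num
  linarith

theorem lg_ge : 0.2 ≤ Real.log (5 / 4) := by
  have h2 := Real.one_sub_inv_le_log_of_pos (x := (5 : ℝ) / 4) (by positivity)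
  norm_num at h2 ⊢
  exact h2

set_option maxHeartbeats 1000000 in
/-- the main estimate for the small primes -/
theorem core (n : ℕ) (hn : 1000 ≤ n) (U f i0 : ℝ) (hU1 : 176 ≤ U)
    (hU : U ^ 4 * ((n : ℝ) + 1) ^ 9 ≤ (n : ℝ) ^ 12) (hi : 1 / (n : ℝ) ≤ i0) (hi0 : i0 ≤ 1 / 1000)
    (hf : 0 ≤ f) (hL : 6.907 ≤ Real.log n)
    (hr : ∀ q : ℝ, 2.996 * Real.exp (0.98 * Real.log n - 4) ≤ q → 36 ≤ q ∧ (√q + 1) ^ 2 ≤ f * q) :
    ∑ p ∈ (SS (NN n) (HH n)).filter (fun p => p ^ 4 ≤ (n + 1) ^ 9), Real.log p ≤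
      (2 * (1 / 4 * Real.log n - Real.log 3 + 17 / 4 * i0 + 1 / U) + 4.2 * (1 / U) +
        2 * (1.02 * Real.log n + 3 + 3 * i0) * Real.log (5 / 4) -
        2 * min (1 / 5 * (-3 - Real.log n / 50) + Real.log 3 - 1 / U - 19 / 5 * i0)
          (1.35 * (1 / 5 * (-3 - Real.log n / 50) + Real.log 3 - 1 / U - 19 / 5 * i0)) + 0.7 * i0 +
        9 / 16 * f * (Real.exp (-4 - Real.log n / 50) / 3) * (9 / 4 * Real.log n + 21 / 4 * i0) *
          (1 / 4 * Real.log n - Real.log 3 + 17 / 4 * i0 + 1 / U)) * HH n := by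
  have hn' : (1000 : ℝ) ≤ n := by exact_mod_cast hn
  have hn0 : (0 : ℝ) < n := by linarith
  have hin : 0 < 1 / (n : ℝ) := by positivity
  have hl3 := log3_le
  have hl3g := log3_ge
  have hU0 : 0 < 1 / U := by positivity
  have hUi : 1 / U ≤ 1 / 176 := one_div_le_one_div_of_le (by norm_num) hU1
  set L := Real.log n with hLd
  set i := 1 / (n : ℝ) with hidef
  set y := -3 - L / 50 with hy
  set c2 := Real.exp (-4 - L / 50) / 3 with hc2d
  have hc2 : 0 < c2 := by positivity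
  have hyc : Real.log c2 = y - 1 - Real.log 3 := by
    rw [hc2d, Real.log_div (Real.exp_pos _).ne' (by norm_num), Real.log_exp, hy]
    ring
  have hc2small : c2 ≤ 1 / 6 := by
    have h1 : Real.exp (-4 - L / 50) ≤ Real.exp (-1) := Real.exp_le_exp.mpr (by linarith)
    have h2 : Real.exp (-1) ≤ 1 / 2 := by
      rw [Real.exp_neg, one_div]
      apply inv_anti₀ (by norm_num)
      have := Real.exp_one_gt_d9
      linarith
    rw [hc2d]
    linarith
  have hHr : (HH n : ℝ) = 3 * (n : ℝ) ^ 2 + 3 * n := by unfold HH; push_cast; ring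
  have hc2n : c2 * HH n ≤ (n : ℝ) ^ 2 := by
    rw [hHr]
    have h1 : 3 * (n : ℝ) ^ 2 + 3 * n ≤ 6 * (n : ℝ) ^ 2 := by nlinarith
    calc c2 * (3 * (n : ℝ) ^ 2 + 3 * n) ≤ 1 / 6 * (6 * (n : ℝ) ^ 2) := by gcongr
      _ = (n : ℝ) ^ 2 := by ring
  -- lower bound for the quantity `q`
  have hq : ∀ k ∈ KK n, 2.996 * Real.exp (0.98 * L - 4) ≤ c2 * (HH n * (1 / (k : ℝ))) := by
    intro k hk
    have hkv := le_v n k hk
    have hk1 : 1 ≤ k := by
      unfold KK at hk
      rw [mem_filter, Finset.mem_Icc] at hk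
      exact hk.1.1
    have hk0 : (0 : ℝ) < k := by exact_mod_cast hk1
    have h1 : 8.99 * (n : ℝ) ≤ HH n * (1 / (k : ℝ)) := by
      rw [mul_one_div, le_div_iff₀ hk0, hHr]
      have h2 : 8.99 * (n : ℝ) * k ≤ 8.99 * (n : ℝ) * (((n : ℝ) + 2) / 3) := by gcongr
      refine h2.trans ?_
      nlinarith
    have h2 : Real.exp (0.98 * L - 4) = Real.exp (-4 - L / 50) * n := by
      rw [show (0.98 : ℝ) * L - 4 = (-4 - L / 50) + L by ring, Real.exp_add, hLd, Real.exp_log hn0]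
    rw [h2]
    calc 2.996 * (Real.exp (-4 - L / 50) * n) ≤ c2 * (8.99 * (n : ℝ)) := by
          have h3 : 0 < Real.exp (-4 - L / 50) * n := by positivity
          have h4 : c2 * (8.99 * (n : ℝ)) = 8.99 / 3 * (Real.exp (-4 - L / 50) * n) := by
            rw [hc2d]; ring
          rw [h4]
          linarith
      _ ≤ _ := by gcongr
  have hAv0 : 0 < L + y + Real.log 3 - 2 * i := by rw [hy]; linarith
  have hP0 : 0 < L + y + Real.log 3 - 1 / U - 2 * i := by rw [hy]; linarith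
  set s1 := 1 / 4 * L - Real.log 3 + 17 / 4 * i + 1 / U with hs1d
  have hs10 : 0 < s1 := by rw [hs1d]; linarith
  have hs1 : ∑ k ∈ KK n, 1 / (k : ℝ) ≤ s1 := by
    rcases s1_bound n (by omega) U (by linarith) hU with h1 | h1
    · exact h1
    · rw [h1, Finset.sum_empty]; exact hs10.le
  set w := 1 / 5 * y + Real.log 3 - 1 / U - 19 / 5 * i with hwd
  set P := L + y + Real.log 3 - 1 / U - 2 * i with hPd
  set Av := L + y + Real.log 3 - 2 * i with hAvd
  have hw2 : w ≤ 0.5 := by rw [hwd, hy]; linarith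
  have hP4 : 4 ≤ P := by rw [hPd, hy]; linarith
  have hs20 : 0 ≤ 1 / U * (1 / Av) + (Real.log (5 / 4) - w / P) := by
    have h1 : w / P ≤ 0.2 := by
      rw [div_le_iff₀ hP0]
      linarith
    have h2 := lg_ge
    have h3 : 0 ≤ 1 / U * (1 / Av) := by positivity
    linarith
  have hs2 : ∑ k ∈ KK n, 1 / ((k : ℝ) * (2 * L + y - Real.log k)) ≤
      1 / U * (1 / Av) + (Real.log (5 / 4) - w / P) := by
    rcases s2_bound n (by omega) U y (by linarith) hU hP0 with h1 | h1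
    · exact h1
    · rw [h1, Finset.sum_empty]; exact hs20
  set B := L + 3 * i - y with hBd
  have hB0 : 0 ≤ B := by rw [hBd, hy]; linarith
  have hT := T_bound n (by omega) y c2 f s1 (1 / U * (1 / Av) + (Real.log (5 / 4) - w / P)) Av hc2 hf hyc
    (fun k hk => hr _ (hq k hk)) hc2n hAv0 le_rfl hs1 hs2 hB0 U (by linarith) hU
  refine hT.trans ?_
  apply mul_le_mul_of_nonneg_right _ (Nat.cast_nonneg _)
  -- the ratios
  have hBA : B / Av ≤ 2.1 := by
    rw [div_le_iff₀ hAv0, hBd, hAvd, hy]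
    linarith
  have hBA0 : 0 ≤ B / Av := by positivity
  have hBP1 : 1 ≤ B / P := by
    rw [le_div_iff₀ hP0, hBd, hPd, hy]
    linarith
  have hwBP : min (1 / 5 * y + Real.log 3 - 1 / U - 19 / 5 * i0)
      (1.35 * (1 / 5 * y + Real.log 3 - 1 / U - 19 / 5 * i0)) ≤ w * (B / P) := by
    set w0 := 1 / 5 * y + Real.log 3 - 1 / U - 19 / 5 * i0 with hw0
    have hww : w0 ≤ w := by rw [hw0, hwd]; linarith
    rcases le_total 0 w with h | h
    · refine (min_le_left _ _).trans (hww.trans ?_)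
      exact le_mul_of_one_le_right h hBP1
    · refine (min_le_right _ _).trans ?_
      have hR : B / P ≤ 1.35 := by
        rw [div_le_iff₀ hP0, hBd, hPd]
        -- `w ≤ 0` forces `L ≥ 110`
        rw [hwd, hy] at h
        rw [hy]
        linarith
      have h1 := mul_le_mul_of_nonpos_left hR h
      linarith
  have he : ((n : ℝ) + 2) / (9 * n * (n + 1)) ≤ 0.1113 * i0 := by
    have e1 : ((n : ℝ) + 2) / (9 * n * (n + 1)) = 1 / 9 * i * (1 + 1 / (n + 1)) := by
      rw [hidef]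
      field_simp
      ring
    have e2 : 1 / ((n : ℝ) + 1) ≤ 1 / 1000 := one_div_le_one_div_of_le (by norm_num) (by linarith)
    rw [e1]
    nlinarith
  have he0 := (e_facts n (by omega)).2
  have hi0' : 0 < i0 := by linarith
  have t2 : 2 * B * (1 / U * (1 / Av) + (Real.log (5 / 4) - w / P)) ≤
      4.2 * (1 / U) + 2 * (1.02 * L + 3 + 3 * i0) * Real.log (5 / 4) -
        2 * min (1 / 5 * y + Real.log 3 - 1 / U - 19 / 5 * i0)
          (1.35 * (1 / 5 * y + Real.log 3 - 1 / U - 19 / 5 * i0)) := by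
    have e1 : 2 * B * (1 / U * (1 / Av) + (Real.log (5 / 4) - w / P)) =
      2 * (1 / U) * (B / Av) + 2 * B * Real.log (5 / 4) - 2 * (w * (B / P)) := by
      ring
    rw [e1]
    have e2 : 2 * (1 / U) * (B / Av) ≤ 2 * (1 / U) * 2.1 := by gcongr
    have e3 : 2 * B * Real.log (5 / 4) ≤ 2 * (1.02 * L + 3 + 3 * i0) * Real.log (5 / 4) := by
      have h2 := lg_ge
      apply mul_le_mul_of_nonneg_right _ (by linarith)
      rw [hBd, hy]
      linarith
    linarith
  have t3 : ((n : ℝ) + 2) / (9 * n * (n + 1)) * (2 + 2 * B / Av) ≤ 0.7 * i0 := by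
    have e1 : 2 + 2 * B / Av ≤ 6.2 := by
      have : 2 * B / Av = 2 * (B / Av) := by ring
      rw [this]
      linarith
    have e2 : 0 ≤ 2 + 2 * B / Av := by positivity
    calc ((n : ℝ) + 2) / (9 * n * (n + 1)) * (2 + 2 * B / Av) ≤ (0.1113 * i0) * 6.2 := by gcongr
      _ ≤ 0.7 * i0 := by linarith
  have t4 : 9 / 16 * f * c2 * (9 / 4 * L + 21 / 4 * i) * s1 ≤
      9 / 16 * f * c2 * (9 / 4 * L + 21 / 4 * i0) *
          (1 / 4 * L - Real.log 3 + 17 / 4 * i0 + 1 / U) := by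
    have e1 : s1 ≤ 1 / 4 * L - Real.log 3 + 17 / 4 * i0 + 1 / U := by rw [hs1d]; linarith
    have e2 : 9 / 4 * L + 21 / 4 * i ≤ 9 / 4 * L + 21 / 4 * i0 := by linarith
    have e3 : 0 ≤ 9 / 4 * L + 21 / 4 * i := by linarith
    gcongr
  have t1 : s1 ≤ 1 / 4 * L - Real.log 3 + 17 / 4 * i0 + 1 / U := by rw [hs1d]; linarith
  linarith

theorem exp4 : Real.exp (-4) ≤ 0.01832 := by
  have h1 := Real.exp_one_gt_d9
  have h2 : Real.exp 4 = Real.exp 1 ^ 4 := by
    rw [← Real.exp_nat_mul]; norm_num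
  have h3 : (54.59 : ℝ) ≤ Real.exp 4 := by
    rw [h2]
    calc (54.59 : ℝ) ≤ 2.7182818283 ^ 4 := by norm_num
      _ ≤ _ := by gcongr
  rw [Real.exp_neg, inv_le_comm₀ (Real.exp_pos _) (by norm_num)]
  refine le_trans ?_ h3
  norm_num

theorem regC1 (n : ℕ) (hn : 1000 ≤ n) (hL20 : Real.log n ≤ 20) :
    n ^ 2 ≤ 100 * ((SS (NN n) (HH n)).filter (fun p => ¬ p ^ 4 ≤ (n + 1) ^ 9)).card := by
  have hn' : (1000 : ℝ) ≤ n := by exact_mod_cast hn
  have hn0 : (0 : ℝ) < n := by linarith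
  have h2l := Real.log_two_lt_d9
  have h2g := Real.log_two_gt_d9
  have hl3 := log3_le
  have hl3g := log3_ge
  have hl4 := log4_eq
  have hlg := lg_le
  have hLlow : 6.907 ≤ Real.log n := by
    have h1 : Real.log 1000 ≤ Real.log n := Real.log_le_log (by norm_num) hn'
    have h2 := Real.one_sub_inv_le_log_of_pos (x := (1000 : ℝ) / 2 ^ 10) (by positivity)
    rw [Real.log_div (by positivity) (by positivity), Real.log_pow] at h2
    norm_num at h2
    linarith
  have hE := E_bound n 1000 0.2184 (by norm_num) hn (by norm_num) (by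
    have h1 := Real.log_le_sub_one_of_pos (x := (1001 : ℝ) / 2 ^ 10) (by positivity)
    rw [Real.log_div (by positivity) (by positivity), Real.log_pow] at h1
    norm_num at h1
    have h2 : (31.638 : ℝ) ≤ √1001 := Real.le_sqrt_of_sq_le (by norm_num)
    norm_num
    linarith)
  have hU := U_ok n 1000 (by norm_num) hn 176 (by norm_num)
  have hi : 1 / (n : ℝ) ≤ 1 / 1000 := one_div_le_one_div_of_le (by norm_num) hn'
  have hT := core n hn 176 1.32 (1 / 1000) le_rfl hU hi le_rfl (by norm_num) hLlow (by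
    intro q hq
    have h1 : (15.4 : ℝ) ≤ Real.exp (0.98 * Real.log n - 4) := by
      have h2 : Real.exp (2.768 : ℝ) ≤ Real.exp (0.98 * Real.log n - 4) :=
        Real.exp_le_exp.mpr (by linarith)
      refine le_trans ?_ h2
      have h3 : Real.exp (2.768 : ℝ) = Real.exp 1 ^ 3 * Real.exp (-0.232) := by
        rw [← Real.exp_nat_mul, ← Real.exp_add]
        norm_num
      rw [h3]
      have h4 := Real.exp_one_gt_d9
      have h5 := Real.add_one_le_exp (-0.232 : ℝ)
      calc (15.4 : ℝ) ≤ 2.7182818283 ^ 3 * (-0.232 + 1) := by norm_num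
        _ ≤ _ := by gcongr
    have h2 : (45.17 : ℝ) ≤ q := by linarith
    have h3 : (6.72 : ℝ) ≤ √q := Real.le_sqrt_of_sq_le (by norm_num; linarith)
    have h4 : √q * √q = q := Real.mul_self_sqrt (by linarith)
    refine ⟨by linarith, ?_⟩
    nlinarith)
  apply reduce n (by omega) _ _ hE hT
  set L := Real.log n with hLd
  set s := L / 50 with hs
  have hs0 : 0.138 ≤ s := by rw [hs]; linarith
  have hs1 : s ≤ 0.4 := by rw [hs]; linarith
  have hLs : L = 50 * s := by rw [hs]; ring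
  have hexp : Real.exp (-4 - s) ≤ 0.01832 * (1 - s + s ^ 2 / 2) := by
    rw [show -4 - s = -4 + -s by ring, Real.exp_add]
    have h1 := exp4
    have h2 := expneg s (by linarith)
    have h3 := Real.exp_pos (-s)
    have h4 := Real.exp_pos (-4)
    gcongr
  have hp := poly1 s hs0 hs1
  have hw0 : 0 ≤ 1 / 5 * (-3 - s) + Real.log 3 - 1 / 176 - 19 / 5 * (1 / 1000) := by
    norm_num
    linarith
  have hmin : min (1 / 5 * (-3 - s) + Real.log 3 - 1 / 176 - 19 / 5 * (1 / 1000))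
      (1.35 * (1 / 5 * (-3 - s) + Real.log 3 - 1 / 176 - 19 / 5 * (1 / 1000))) =
      1 / 5 * (-3 - s) + Real.log 3 - 1 / 176 - 19 / 5 * (1 / 1000) :=
    min_eq_left (by linarith)
  rw [hmin]
  have ht : 9 / 16 * 1.32 * (Real.exp (-4 - s) / 3) * (9 / 4 * L + 21 / 4 * (1 / 1000)) *
          (1 / 4 * L - Real.log 3 + 17 / 4 * (1 / 1000) + 1 / 176) ≤ 1.3393 * s + 0.085 := by
    refine le_trans ?_ hp
    have h1 : 0 < 9 / 4 * L + 21 / 4 * (1 / 1000) := by linarith
    have h2 : 0 ≤ 1 / 4 * L - Real.log 3 + 17 / 4 * (1 / 1000) + 1 / 176 := by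
      norm_num
      linarith
    have h3 : 1 / 4 * L - Real.log 3 + 17 / 4 * (1 / 1000) + 1 / 176 ≤ 12.5 * s - 1.0886 := by
      norm_num
      linarith
    have h4 : 9 / 4 * L + 21 / 4 * (1 / 1000) ≤ 112.5 * s + 0.00525 := by
      norm_num
      linarith
    have h5 : 9 / 16 * 1.32 * (Real.exp (-4 - s) / 3) ≤ 0.0045342 * (1 - s + s ^ 2 / 2) := by
      have : 0 ≤ 1 - s + s ^ 2 / 2 := by nlinarith
      norm_num at hexp ⊢
      linarith
    have h6 : 0 ≤ 9 / 16 * 1.32 * (Real.exp (-4 - s) / 3) := by positivity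
    have h7 : 0 ≤ 0.0045342 * (1 - s + s ^ 2 / 2) := h6.trans h5
    gcongr
  have h2n : 2 / (n : ℝ) = 2 * (1 / n) := by ring
  rw [h2n]
  have hlgs : 2 * (1.02 * L + 3 + 3 * (1 / 1000)) * Real.log (5 / 4) ≤
      2 * (1.02 * L + 3 + 3 * (1 / 1000)) * 0.22315 := by
    apply mul_le_mul_of_nonneg_left hlg
    linarith
  norm_num at ht hlgs hi ⊢
  linarith

end H50LQ
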